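import Pool.Agent.D0H3.ZPM.Exc
import Pool.Agent.Y670.RD.Rid

/-!
Approximations of algebraic numbers: an application of Ridout's theorem (helper file).
-/

set_option autoImplicit false

open Polynomial Set Filter

namespace Pool.Agent.D0H3.ZPM

open Pool.Agent.Y83.ZPI (SmoothZ hom hom_eq hom_bound Bad bad_hom)
open Pool.Agent.Y670.RD (fv rid_form')

theorem fv_hom (G : ℤ[X]) (u v : ℤ) : fv G.natDegree G u v = hom G u v := rfl

/-- the product formula for an integer without large prime factors -/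
theorem prod_smooth (D : ℕ) {z : ℤ} (hz : z ≠ 0) (hs : SmoothZ D z) :
    |(z : ℝ)| * ∏ p ∈ (Finset.range (D + 1)).filter Nat.Prime, (padicNorm p (z : ℚ) : ℝ) = 1 := by
  set S := (Finset.range (D + 1)).filter Nat.Prime with hS
  have hSp : ∀ p ∈ S, p.Prime := fun p hp => (Finset.mem_filter.1 hp).2
  obtain ⟨n, hn⟩ : ∃ n : ℕ, n = z.natAbs := ⟨_, rfl⟩
  have hn0 : n ≠ 0 := by rw [hn]; exact Int.natAbs_ne_zero.2 hz
  have h1 : ∀ p : ℕ, padicNorm p (z : ℚ) = padicNorm p ((n : ℕ) : ℚ) := by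
    intro p
    rcases Int.natAbs_eq z with h | h
    · rw [h, ← hn]
      simp
    · rw [h, ← hn]
      push_cast
      exact padicNorm.neg _
  have h2 : |(z : ℝ)| = n := by
    rw [hn, Nat.cast_natAbs, Int.cast_abs]
  have h3 : (n : ℝ) = ∏ p ∈ S, (p : ℝ) ^ n.factorization p := by
    have h4 := Nat.prod_factorization_pow_eq_self hn0
    have h5 : n.factorization.prod (fun p k => p ^ k) = ∏ p ∈ S, p ^ n.factorization p := by
      refine Finsupp.prod_of_support_subset _ ?_ _ fun p _ => pow_zero p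
      intro p hp
      rw [Nat.support_factorization, Nat.mem_primeFactors] at hp
      rw [hS, Finset.mem_filter, Finset.mem_range]
      refine ⟨?_, hp.1⟩
      by_contra hcon
      refine hs p hp.1 (by omega) ?_
      rw [Int.natCast_dvd, ← hn]
      exact hp.2.1
    rw [h5] at h4
    exact_mod_cast h4.symm
  simp only [h1]
  rw [h2, h3, ← Finset.prod_mul_distrib]
  refine Finset.prod_eq_one fun p hp => ?_
  have hp' := hSp p hp
  have : Fact p.Prime := ⟨hp'⟩
  have hp0 : (p : ℝ) ≠ 0 := by exact_mod_cast hp'.ne_zero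
  rw [padicNorm.eq_zpow_of_nonzero (by exact_mod_cast hn0), padicValRat.of_nat,
    Nat.factorization_def n hp', zpow_neg, zpow_natCast, Rat.cast_inv, Rat.cast_pow,
    Rat.cast_natCast]
  field_simp

theorem prod_int (D : ℕ) (z : ℤ) :
    ∏ p ∈ (Finset.range (D + 1)).filter Nat.Prime, (padicNorm p (z : ℚ) : ℝ) ≤ 1 := by
  refine Finset.prod_le_one (fun p hp => ?_) fun p hp => ?_
  · exact_mod_cast padicNorm.nonneg _
  · have : Fact p.Prime := ⟨(Finset.mem_filter.1 hp).2⟩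
    exact_mod_cast padicNorm.of_int z

/-- An integral polynomial is Lipschitz on bounded sets. -/
theorem poly_lip (m : ℤ[X]) (ξ : ℝ) (h0 : aeval ξ m = 0) : ∃ K : ℝ, 0 ≤ K ∧ ∀ y : ℝ, |ξ - y| ≤ 1 →
    |aeval y m| ≤ K * |ξ - y| := by
  have hfun : ∀ y : ℝ, aeval y m = (m.map (algebraMap ℤ ℝ)).eval y := fun y => by
    rw [aeval_def, eval_map]
  set q := m.map (algebraMap ℤ ℝ) with hq
  have hroot : q.IsRoot ξ := by
    rw [IsRoot.def, ← hfun]
    exact h0
  obtain ⟨r, hr⟩ := dvd_iff_isRoot.2 hroot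
  obtain ⟨K, hK⟩ := (isCompact_Icc (a := ξ - 1) (b := ξ + 1)).exists_bound_of_continuousOn
    (f := fun y : ℝ => r.eval y) (Polynomial.continuous _).continuousOn
  refine ⟨|K|, abs_nonneg _, fun y hy => ?_⟩
  rw [hfun, hr, eval_mul, eval_sub, eval_X, eval_C, abs_mul, abs_sub_comm, mul_comm]
  refine mul_le_mul_of_nonneg_right ?_ (abs_nonneg _)
  have h1 := abs_le.1 hy
  have h2 := hK y ⟨by linarith [h1.2], by linarith [h1.1]⟩
  rw [Real.norm_eq_abs] at h2
  exact h2.trans (le_abs_self K)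

/-- **Ridout's theorem** for numbers without large prime factors. For an algebraic number there are
only finitely many approximations of exponent larger than `2 - ω` with bad numerators. -/
theorem alg_finite (D : ℕ) (P : ℤ[X]) (hP : 0 < P.natDegree) {ξ : ℝ} (hξ : IsAlgebraic ℚ ξ)
    (hPξ : aeval ξ P ≠ 0) {τ : ℝ} (hτ0 : 0 < τ) (hτ : 2 - ((rts P).ncard : ℝ) < τ) (C₀ : ℝ) :
    {x : ℚ | Bad D P x ∧ |ξ - x| ≤ C₀ * (x.den : ℝ) ^ (-τ)}.Finite := by
  classical
  obtain ⟨h, a, D', hmon, hdeg, hsq, ha, hval, hbad⟩ := exists_monic D P hP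
  have har : (a : ℝ) ≠ 0 := by exact_mod_cast ha
  have haq : (a : ℚ) ≠ 0 := by exact_mod_cast ha
  obtain ⟨ζ, hζ⟩ : ∃ ζ : ℝ, ζ = a * ξ := ⟨_, rfl⟩
  have hζalg : IsAlgebraic ℚ ζ := by
    rw [hζ]
    exact (isAlgebraic_int a).mul hξ
  have hζh : aeval ζ h ≠ 0 := by
    rw [hζ]
    exact hval ξ hPξ
  have hrts : 1 ≤ (rts P).ncard := by
    have hP0 : P ≠ 0 := by
      rintro rfl
      simp at hP
    rw [Nat.one_le_iff_ne_zero, Ne, Set.ncard_eq_zero (rts_finite hP0), ← Ne,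
      ← Set.nonempty_iff_ne_empty]
    have h1 : 0 < (P.map (algebraMap ℤ ℂ)).degree := by
      rw [Polynomial.degree_map_eq_of_injective (RingHom.injective_int _)]
      exact Polynomial.natDegree_pos_iff_degree_pos.1 hP
    obtain ⟨z, hz⟩ := IsAlgClosed.exists_root _ h1.ne'
    refine ⟨z, ?_⟩
    rw [rts, Set.mem_ofPred_eq, Polynomial.aeval_def, ← Polynomial.eval_map]
    exact hz
  have hd1 : 1 ≤ h.natDegree := hrts.trans hdeg
  -- the minimal polynomial of `ζ`
  have hint : IsIntegral ℚ ζ := hζalg.isIntegral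
  have hirr : Irreducible (minpoly ℚ ζ) := minpoly.irreducible hint
  obtain ⟨b, m, hb, hm⟩ := clear (minpoly ℚ ζ)
  have hb' : (b : ℚ) ≠ 0 := by exact_mod_cast hb
  have hcast : (Int.castRingHom ℚ) = algebraMap ℤ ℚ := rfl
  have hmζ : aeval ζ m = 0 := by
    have h1 : aeval ζ (m.map (Int.castRingHom ℚ)) = 0 := by
      rw [hm, map_mul, minpoly.aeval, mul_zero]
    rwa [hcast, aeval_map_algebraMap] at h1
  have hm0 : m ≠ 0 := by
    rintro rfl
    rw [Polynomial.map_zero] at hm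
    exact mul_ne_zero (C_ne_zero.2 hb') hirr.ne_zero hm.symm
  have hme : m.natDegree = (minpoly ℚ ζ).natDegree := by
    have h1 : (m.map (Int.castRingHom ℚ)).natDegree = m.natDegree :=
      natDegree_map_eq_of_injective (RingHom.injective_int _) m
    rw [← h1, hm, natDegree_C_mul hb']
  have hme1 : 1 ≤ m.natDegree := by
    rw [hme]
    exact minpoly.natDegree_pos hint
  have hh0 : h ≠ 0 := hmon.ne_zero
  -- the product
  have hsqG : Squarefree ((m * h).map (Int.castRingHom ℚ)) := by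
    rw [Polynomial.map_mul]
    have h1 : Associated (minpoly ℚ ζ) (m.map (Int.castRingHom ℚ)) := by
      rw [hm]
      exact (associated_unit_mul_left _ _ (isUnit_C.2 (isUnit_iff_ne_zero.2 hb'))).symm
    have h2 : Irreducible (m.map (Int.castRingHom ℚ)) := h1.irreducible hirr
    have h3 : ¬ m.map (Int.castRingHom ℚ) ∣ h.map (Int.castRingHom ℚ) := by
      rintro ⟨w, hw⟩
      apply hζh
      have h4 : aeval ζ (h.map (Int.castRingHom ℚ)) = 0 := by
        have h5 : aeval ζ (m.map (Int.castRingHom ℚ)) = 0 := by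
          rw [hcast, aeval_map_algebraMap]
          exact hmζ
        rw [hw, map_mul, h5, zero_mul]
      rwa [hcast, aeval_map_algebraMap] at h4
    have h4 : IsCoprime (m.map (Int.castRingHom ℚ)) (h.map (Int.castRingHom ℚ)) :=
      (h2.coprime_iff_not_dvd).2 h3
    exact (squarefree_mul_iff.2 ⟨h4.isRelPrime, h2.squarefree, hsq⟩)
  have hdG : (m * h).natDegree = m.natDegree + h.natDegree := natDegree_mul hm0 hh0
  obtain ⟨ε, hε⟩ : ∃ ε : ℝ, ε = (τ - (2 - (h.natDegree : ℝ))) / 2 := ⟨_, rfl⟩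
  have hdegr : ((rts P).ncard : ℝ) ≤ h.natDegree := by exact_mod_cast hdeg
  have hε0 : 0 < ε := by rw [hε]; linarith
  obtain ⟨c, hc, hrid⟩ := rid_form' (m * h) hsqG (by omega)
    ((Finset.range (D' + 1)).filter Nat.Prime) (fun p hp => (Finset.mem_filter.1 hp).2) ε hε0
  obtain ⟨K, hK0, hK⟩ := poly_lip m ζ hmζ
  -- transfer to `ζ`
  have key : {y : ℚ | (hom h y.num y.den ≠ 0 ∧ SmoothZ D' (hom h y.num y.den)) ∧
      |ζ - y| ≤ (|(a : ℝ)| * |C₀|) * (y.den : ℝ) ^ (-τ)}.Finite := by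
    set C₁ := |(a : ℝ)| * |C₀| with hC₁
    have hC₁0 : 0 ≤ C₁ := by positivity
    by_contra hinf
    -- remove the zeros of `m`
    have hroots : {y : ℚ | aeval (y : ℝ) m = 0}.Finite := by
      have h1 : {y : ℚ | aeval (y : ℝ) m = 0} ⊆ (fun y : ℚ => (y : ℝ)) ⁻¹' (m.rootSet ℝ) := by
        intro y hy
        rw [Set.mem_preimage, mem_rootSet]
        exact ⟨hm0, hy⟩
      exact ((rootSet_finite m ℝ).preimage Rat.cast_injective.injOn).subset h1
    obtain ⟨q₁, hq₁⟩ := eventually_atTop.1 ((tendsto_small C₁ τ hτ0).eventually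
      (gt_mem_nhds one_pos))
    -- the exponent
    obtain ⟨θ, hθ⟩ : ∃ θ : ℝ, θ = (((m * h).natDegree : ℝ)) - 2 - ε := ⟨_, rfl⟩
    obtain ⟨B, hB⟩ : ∃ B : ℝ, B = |ζ| + 2 := ⟨_, rfl⟩
    have hB1 : 1 ≤ B := by rw [hB]; linarith [abs_nonneg ζ]
    obtain ⟨c₂, hc₂⟩ : ∃ c₂ : ℝ, c₂ = min 1 (B ^ θ) := ⟨_, rfl⟩
    have hc₂0 : 0 < c₂ := by
      rw [hc₂]
      exact lt_min one_pos (Real.rpow_pos_of_pos (by linarith) _)
    have hlim : Tendsto (fun q : ℕ => (q : ℝ) ^ ε) atTop atTop :=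
      (tendsto_rpow_atTop hε0).comp tendsto_natCast_atTop_atTop
    obtain ⟨q₂, hq₂⟩ := eventually_atTop.1 (hlim.eventually_gt_atTop (K * C₁ / (c * c₂)))
    have hinf' := (Set.Infinite.sdiff hinf hroots).mono (t := {y : ℚ | y ∈ {y : ℚ |
      (hom h y.num y.den ≠ 0 ∧ SmoothZ D' (hom h y.num y.den)) ∧ aeval (y : ℝ) m ≠ 0} ∧
      |ζ - y| ≤ C₁ * (y.den : ℝ) ^ (-τ)}) (fun y hy => ⟨⟨hy.1.1, hy.2⟩, hy.1.2⟩)
    obtain ⟨y, ⟨⟨hy1, hy2⟩, hy3⟩, hy4, hy5⟩ := exists_large ζ C₁ τ hτ0.le hinf' (max q₁ q₂)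
    have hd0 : (0 : ℝ) < y.den := by exact_mod_cast y.pos
    have hd1' : (1 : ℝ) ≤ y.den := by exact_mod_cast y.pos
    have hy6 : |ζ - y| ≤ 1 := hy4.trans (hq₁ _ ((le_max_left _ _).trans hy5.le)).le
    have hcop : IsCoprime y.num (y.den : ℤ) := by
      have h8 : Nat.Coprime y.num.natAbs (y.den : ℤ).natAbs := by simpa using y.reduced
      exact Int.isCoprime_iff_gcd_eq_one.2 h8
    have hmy : (hom m y.num y.den : ℝ) = aeval (y : ℝ) m * (y.den : ℝ) ^ m.natDegree := by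
      have e2 := hom_eq m y
      have e3 : ((aeval y m : ℚ) : ℝ) = aeval (y : ℝ) m := by
        have := aeval_algebraMap_apply ℝ y m
        simpa using this.symm
      have e4 := congrArg (fun z : ℚ => (z : ℝ)) e2
      push_cast at e4
      rw [e4, e3]
    have hGy : hom (m * h) y.num y.den = hom m y.num y.den * hom h y.num y.den := by
      have e2 : (hom (m * h) y.num y.den : ℚ) = hom m y.num y.den * hom h y.num y.den := by
        rw [hom_eq, hom_eq, hom_eq, hdG, map_mul, pow_add]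
        ring
      exact_mod_cast e2
    have hmne : hom m y.num y.den ≠ 0 := by
      intro h0
      rw [h0, Int.cast_zero] at hmy
      exact mul_ne_zero hy3 (pow_ne_zero _ hd0.ne') hmy.symm
    have hGne : fv (m * h).natDegree (m * h) y.num y.den ≠ 0 := by
      rw [fv_hom, hGy]
      exact mul_ne_zero hmne hy1
    have h1 := hrid y.num y.den hcop hGne
    rw [fv_hom, hGy, ← hθ] at h1
    -- the right hand side
    have h2 : |((hom m y.num y.den * hom h y.num y.den : ℤ) : ℝ)| *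
        ∏ p ∈ (Finset.range (D' + 1)).filter Nat.Prime,
          (padicNorm p ((hom m y.num y.den * hom h y.num y.den : ℤ) : ℚ) : ℝ) ≤
        |(hom m y.num y.den : ℝ)| := by
      have e1 : ∏ p ∈ (Finset.range (D' + 1)).filter Nat.Prime,
          (padicNorm p ((hom m y.num y.den * hom h y.num y.den : ℤ) : ℚ) : ℝ) =
          (∏ p ∈ (Finset.range (D' + 1)).filter Nat.Prime,
            (padicNorm p ((hom m y.num y.den : ℤ) : ℚ) : ℝ)) *
          ∏ p ∈ (Finset.range (D' + 1)).filter Nat.Prime,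
            (padicNorm p ((hom h y.num y.den : ℤ) : ℚ) : ℝ) := by
        rw [← Finset.prod_mul_distrib]
        refine Finset.prod_congr rfl fun p hp => ?_
        have : Fact p.Prime := ⟨(Finset.mem_filter.1 hp).2⟩
        rw [Int.cast_mul, padicNorm.mul, Rat.cast_mul]
      have e2 := prod_smooth D' hy1 hy2
      have e3 := prod_int D' (hom m y.num y.den)
      rw [e1, Int.cast_mul, abs_mul]
      calc |(hom m y.num y.den : ℝ)| * |(hom h y.num y.den : ℝ)| *
          ((∏ p ∈ (Finset.range (D' + 1)).filter Nat.Prime,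
            (padicNorm p ((hom m y.num y.den : ℤ) : ℚ) : ℝ)) *
          ∏ p ∈ (Finset.range (D' + 1)).filter Nat.Prime,
            (padicNorm p ((hom h y.num y.den : ℤ) : ℚ) : ℝ)) =
          |(hom m y.num y.den : ℝ)| * (∏ p ∈ (Finset.range (D' + 1)).filter Nat.Prime,
            (padicNorm p ((hom m y.num y.den : ℤ) : ℚ) : ℝ)) *
          (|(hom h y.num y.den : ℝ)| * ∏ p ∈ (Finset.range (D' + 1)).filter Nat.Prime,
            (padicNorm p ((hom h y.num y.den : ℤ) : ℚ) : ℝ)) := by ring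
        _ = |(hom m y.num y.den : ℝ)| * (∏ p ∈ (Finset.range (D' + 1)).filter Nat.Prime,
            (padicNorm p ((hom m y.num y.den : ℤ) : ℚ) : ℝ)) := by rw [e2, mul_one]
        _ ≤ |(hom m y.num y.den : ℝ)| * 1 := mul_le_mul_of_nonneg_left e3 (abs_nonneg _)
        _ = _ := mul_one _
    -- the left hand side
    have h3 : c₂ * (y.den : ℝ) ^ θ ≤ (max |(y.num : ℝ)| |((y.den : ℤ) : ℝ)|) ^ θ := by
      set Mx := max |(y.num : ℝ)| |((y.den : ℤ) : ℝ)| with hMx
      have e1 : (y.den : ℝ) ≤ Mx := by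
        refine le_trans (le_of_eq ?_) (le_max_right _ _)
        rw [Int.cast_natCast, abs_of_pos hd0]
      have e2 : Mx ≤ B * y.den := by
        refine max_le ?_ ?_
        · have e3 : (y.num : ℝ) = y * y.den := by exact_mod_cast (Rat.mul_den_eq_num y).symm
          rw [e3, abs_mul, abs_of_pos hd0]
          refine mul_le_mul_of_nonneg_right ?_ hd0.le
          have e4 : (y : ℝ) = ζ - (ζ - y) := by ring
          rw [e4, hB]
          exact (abs_sub _ _).trans (by linarith)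
        · rw [Int.cast_natCast, abs_of_pos hd0]
          nlinarith
      rcases le_total 0 θ with h0 | h0
      · calc c₂ * (y.den : ℝ) ^ θ ≤ 1 * (y.den : ℝ) ^ θ := by
              refine mul_le_mul_of_nonneg_right ?_ (by positivity)
              rw [hc₂]
              exact min_le_left _ _
          _ = (y.den : ℝ) ^ θ := one_mul _
          _ ≤ Mx ^ θ := Real.rpow_le_rpow hd0.le e1 h0
      · calc c₂ * (y.den : ℝ) ^ θ ≤ B ^ θ * (y.den : ℝ) ^ θ := by
              refine mul_le_mul_of_nonneg_right ?_ (by positivity)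
              rw [hc₂]
              exact min_le_right _ _
          _ = (B * y.den) ^ θ := by rw [Real.mul_rpow (by linarith) hd0.le]
          _ ≤ Mx ^ θ := Real.rpow_le_rpow_of_nonpos (hd0.trans_le e1) e2 h0
    have h4 : c * (c₂ * (y.den : ℝ) ^ θ) ≤ K * (C₁ * (y.den : ℝ) ^ (-τ)) *
        (y.den : ℝ) ^ (m.natDegree : ℝ) := by
      calc c * (c₂ * (y.den : ℝ) ^ θ) ≤ c * (max |(y.num : ℝ)| |((y.den : ℤ) : ℝ)|) ^ θ :=
            mul_le_mul_of_nonneg_left h3 hc.le
        _ ≤ |(hom m y.num y.den : ℝ)| := h1.trans h2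
        _ = |aeval (y : ℝ) m| * (y.den : ℝ) ^ m.natDegree := by
            rw [hmy, abs_mul, abs_of_pos (pow_pos hd0 _)]
        _ ≤ (K * |ζ - y|) * (y.den : ℝ) ^ m.natDegree :=
            mul_le_mul_of_nonneg_right (hK y hy6) (by positivity)
        _ ≤ (K * (C₁ * (y.den : ℝ) ^ (-τ))) * (y.den : ℝ) ^ m.natDegree := by gcongr
        _ = _ := by rw [Real.rpow_natCast]
    have h5 : θ = (-τ) + (m.natDegree : ℝ) + ε := by
      rw [hθ, hε, hdG]
      push_cast
      ring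
    have h6 : (y.den : ℝ) ^ θ = (y.den : ℝ) ^ (-τ) * (y.den : ℝ) ^ (m.natDegree : ℝ) *
        (y.den : ℝ) ^ ε := by
      rw [h5, Real.rpow_add hd0, Real.rpow_add hd0]
    have h7 : 0 < (y.den : ℝ) ^ (-τ) * (y.den : ℝ) ^ (m.natDegree : ℝ) := by positivity
    have h8 : (c * c₂) * (y.den : ℝ) ^ ε ≤ K * C₁ := by
      rw [h6] at h4
      have h9 : (c * c₂ * (y.den : ℝ) ^ ε) * ((y.den : ℝ) ^ (-τ) * (y.den : ℝ) ^ (m.natDegree : ℝ)) ≤
          (K * C₁) * ((y.den : ℝ) ^ (-τ) * (y.den : ℝ) ^ (m.natDegree : ℝ)) := by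
        calc _ = c * (c₂ * ((y.den : ℝ) ^ (-τ) * (y.den : ℝ) ^ (m.natDegree : ℝ) *
              (y.den : ℝ) ^ ε)) := by ring
          _ ≤ _ := h4
          _ = _ := by ring
      exact le_of_mul_le_mul_right h9 h7
    have h9 := hq₂ y.den ((le_max_right _ _).trans hy5.le)
    rw [div_lt_iff₀ (by positivity)] at h9
    linarith [mul_comm (c * c₂) ((y.den : ℝ) ^ ε)]
  refine Set.Finite.of_finite_image (f := fun x : ℚ => (a : ℚ) * x) (key.subset ?_)
    (fun x _ y _ hxy => mul_left_cancel₀ haq hxy)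
  rintro _ ⟨x, ⟨h5, h6⟩, rfl⟩
  refine ⟨hbad x h5, ?_⟩
  simp only
  have h7 : ((a : ℚ) * x).den ≤ x.den := by
    have h8 := Rat.mul_den_dvd (a : ℚ) x
    rw [Rat.den_intCast, one_mul] at h8
    exact Nat.le_of_dvd x.pos h8
  have h7' : (((a : ℚ) * x).den : ℝ) ≤ x.den := by exact_mod_cast h7
  have h9 : (0 : ℝ) < (((a : ℚ) * x).den : ℝ) := by exact_mod_cast ((a : ℚ) * x).pos
  have h8 : (x.den : ℝ) ^ (-τ) ≤ (((a : ℚ) * x).den : ℝ) ^ (-τ) :=
    Real.rpow_le_rpow_of_nonpos h9 h7' (by linarith)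
  push_cast
  rw [hζ, ← mul_sub, abs_mul, mul_assoc]
  refine mul_le_mul_of_nonneg_left (h6.trans ?_) (abs_nonneg _)
  calc C₀ * (x.den : ℝ) ^ (-τ) ≤ |C₀| * (x.den : ℝ) ^ (-τ) :=
        mul_le_mul_of_nonneg_right (le_abs_self C₀) (by positivity)
    _ ≤ |C₀| * (((a : ℚ) * x).den : ℝ) ^ (-τ) := mul_le_mul_of_nonneg_left h8 (abs_nonneg C₀)

end Pool.Agent.D0H3.ZPM
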