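import Pool.Agent.D0H3.ZPM.Pair

/-!
The number of the rational numbers of given height, not near to a zero, at which a monic squarefree
polynomial of degree at least two has no large prime factors is a power of the logarithm (helper file).
-/

set_option autoImplicit false

open Polynomial Finset

namespace Pool.Agent.D0H3.ZPM

open Pool.Agent.Y83.ZPI (SmoothZ smooth_count hom hom_eq hom_bound Bad bad_hom)

theorem two_count {f A B : ℤ[X]} {R : ℤ} (hf : f.Monic) (hR : A * f + B * derivative f = C R)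
    (hR0 : R ≠ 0) (D : ℕ) {ρ T : ℝ} (hρ : 0 < ρ) : ∃ K : ℕ, ∀ Y : ℕ, 1 ≤ Y → ∀ S : Finset ℚ,
      (∀ t ∈ S, hom f t.num t.den ≠ 0 ∧ SmoothZ D (hom f t.num t.den) ∧ |(t : ℝ)| ≤ T ∧
        t.den ≤ Y ∧ t.num.natAbs ≤ Y ∧ ρ * (Y : ℝ) ^ 2 ≤ |(hom f t.num t.den : ℝ)|) →
      S.card ≤ K * (Nat.log 2 ((∑ i ∈ range (f.natDegree + 1), (f.coeff i).natAbs) *
        Y ^ f.natDegree) + 1) ^ (D + 1) := by
  classical
  obtain ⟨q, hq⟩ : ∃ q : ℕ, q = ((D.factorial : ℤ) * R).natAbs := ⟨_, rfl⟩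
  have hq0 : q ≠ 0 := by
    rw [hq]
    exact Int.natAbs_ne_zero.2 (mul_ne_zero (by exact_mod_cast D.factorial_ne_zero) hR0)
  have : NeZero q := ⟨hq0⟩
  have hRr : 0 < |(R : ℝ)| := abs_pos.2 (by exact_mod_cast hR0)
  obtain ⟨c', hc'⟩ : ∃ c' : ℝ, c' = ρ / |(R : ℝ)| := ⟨_, rfl⟩
  have hc'0 : 0 < c' := by rw [hc']; positivity
  refine ⟨2 * (q * (q * (Finset.Icc ⌊-T / c'⌋ ⌊T / c'⌋).card)), fun Y hY S hS => ?_⟩
  have hYr : (1 : ℝ) ≤ Y := by exact_mod_cast hY
  let g : ℚ → ℤ × ZMod q × ZMod q × ℤ := fun t =>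
    (hom f t.num t.den, (t.num : ZMod q), ((t.den : ℤ) : ZMod q), ⌊(t : ℝ) / c'⌋)
  have hdvd : ∀ a b : ℤ, (a : ZMod q) = b → (D.factorial : ℤ) * R ∣ a - b := by
    intro a b h
    rw [← Int.natAbs_dvd, ← hq]
    exact (ZMod.intCast_eq_intCast_iff_dvd_sub b a q).1 h.symm
  have hinj : Set.InjOn g S := by
    intro t ht t' ht' hg
    rw [Finset.mem_coe] at ht ht'
    obtain ⟨h1, h2, h3, h5, h6, h7⟩ := hS t ht
    obtain ⟨h1', h2', h3', h5', h6', h7'⟩ := hS t' ht'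
    simp only [g, Prod.mk.injEq] at hg
    obtain ⟨e1, e2, e3, e4⟩ := hg
    by_contra hne
    have hcop : ∀ x : ℚ, IsCoprime x.num (x.den : ℤ) := fun x => by
      have h8 : Nat.Coprime x.num.natAbs (x.den : ℤ).natAbs := by simpa using x.reduced
      exact Int.isCoprime_iff_gcd_eq_one.2 h8
    have hp := pair_all hf hR hR0 (hcop t) (hcop t') h2 dvd_rfl (dvd_of_eq e1)
      (hdvd _ _ e2) (hdvd _ _ e3)
    have hd1 : (0 : ℝ) < t.den := by exact_mod_cast t.pos
    have hd2 : (0 : ℝ) < t'.den := by exact_mod_cast t'.pos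
    have ht1 : (t : ℝ) = t.num / t.den := by exact_mod_cast (Rat.num_div_den t).symm
    have ht2 : (t' : ℝ) = t'.num / t'.den := by exact_mod_cast (Rat.num_div_den t').symm
    have hdiff : (t : ℝ) - t' = ((t.num * t'.den - t'.num * t.den : ℤ) : ℝ) / (t.den * t'.den) := by
      rw [ht1, ht2]
      push_cast
      field_simp
    have hΔ0 : t.num * (t'.den : ℤ) - t'.num * (t.den : ℤ) ≠ 0 := by
      intro h0
      rw [h0, Int.cast_zero, zero_div, sub_eq_zero] at hdiff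
      exact hne (by exact_mod_cast hdiff)
    have h8 : |(hom f t.num t.den : ℝ)| ≤
        |(R : ℝ)| * |((t.num * t'.den - t'.num * t.den : ℤ) : ℝ)| := by
      have h9 : |hom f t.num t.den| ≤ |R * (t.num * t'.den - t'.num * t.den)| := by
        refine Int.le_of_dvd (abs_pos.2 (mul_ne_zero hR0 hΔ0)) ?_
        rw [abs_dvd_abs]
        exact hp
      have h10 : ((|hom f t.num t.den| : ℤ) : ℝ) ≤
          ((|R * (t.num * t'.den - t'.num * t.den)| : ℤ) : ℝ) := by exact_mod_cast h9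
      rw [Int.cast_abs, Int.cast_abs, Int.cast_mul, abs_mul] at h10
      exact h10
    have h9 : c' ≤ |(t : ℝ) - t'| := by
      rw [hdiff, abs_div, abs_of_pos (mul_pos hd1 hd2), le_div_iff₀ (mul_pos hd1 hd2), hc']
      have h10 : (t.den : ℝ) * t'.den ≤ (Y : ℝ) ^ 2 := by
        rw [sq]
        exact mul_le_mul (by exact_mod_cast h5) (by exact_mod_cast h5') hd2.le (by linarith)
      have h11 : ρ * (Y : ℝ) ^ 2 ≤ |(R : ℝ)| *
          |((t.num * t'.den - t'.num * t.den : ℤ) : ℝ)| := h7.trans h8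
      rw [div_mul_eq_mul_div, div_le_iff₀ hRr]
      calc ρ * ((t.den : ℝ) * t'.den) ≤ ρ * (Y : ℝ) ^ 2 := by gcongr
        _ ≤ _ := h11
        _ = _ := mul_comm _ _
    have h12 := Int.abs_sub_lt_one_of_floor_eq_floor e4
    rw [← sub_div, abs_div, abs_of_pos hc'0, div_lt_one hc'0] at h12
    linarith
  have hmaps : Set.MapsTo g S
      (((S.image fun t => hom f t.num t.den) ×ˢ (Finset.univ : Finset (ZMod q)) ×ˢ
        (Finset.univ : Finset (ZMod q)) ×ˢ Finset.Icc ⌊-T / c'⌋ ⌊T / c'⌋ :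
          Finset (ℤ × ZMod q × ZMod q × ℤ)) : Set (ℤ × ZMod q × ZMod q × ℤ)) := by
    intro t ht
    rw [Finset.mem_coe] at ht ⊢
    obtain ⟨h1, h2, h3, h5, h6, h7⟩ := hS t ht
    simp only [g, Finset.mem_product, Finset.mem_univ, true_and, Finset.mem_Icc, Finset.mem_image]
    refine ⟨⟨t, ht, rfl⟩, Int.floor_le_floor ?_, Int.floor_le_floor ?_⟩
    · exact div_le_div_of_nonneg_right (abs_le.1 h3).1 hc'0.le
    · exact div_le_div_of_nonneg_right (abs_le.1 h3).2 hc'0.le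
  have h1 := Finset.card_le_card_of_injOn g hmaps hinj
  have h2 : (S.image fun t => hom f t.num t.den).card ≤
      2 * (Nat.log 2 ((∑ i ∈ range (f.natDegree + 1), (f.coeff i).natAbs) *
        Y ^ f.natDegree) + 1) ^ (D + 1) := by
    refine smooth_count _ _ _ fun z hz => ?_
    obtain ⟨t, ht, rfl⟩ := Finset.mem_image.1 hz
    obtain ⟨h1, h2, h3, h5, h6, h7⟩ := hS t ht
    refine ⟨h1, hom_bound f h6 ?_, h2⟩
    simpa using h5
  rw [Finset.card_product, Finset.card_product, Finset.card_product, Finset.card_univ,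
    ZMod.card] at h1
  refine h1.trans ?_
  calc _ ≤ (2 * (Nat.log 2 ((∑ i ∈ range (f.natDegree + 1), (f.coeff i).natAbs) *
        Y ^ f.natDegree) + 1) ^ (D + 1)) * (q * (q * (Finset.Icc ⌊-T / c'⌋ ⌊T / c'⌋).card)) := by gcongr
    _ = _ := by ring

end Pool.Agent.D0H3.ZPM
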