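import Pool.Agent.H294ZP.Stmts
import Pool.Agent.W282.ZP.Geo

/-!
Families of subsets of `Y(1)^n` which degenerate at the roots of integral polynomials: the definitions
(those up to `order` are the definitions of the starting file `IntegralParameters`, `SmallExcess` is
the definition of the starting file `FewMembersOverEllipticCurves`).
-/

set_option autoImplicit false

namespace Pool.Agent.D0H3.ZPM

open H294ZP UpperHalfPlane MvPolynomial Pool.Agent.W282.ZP

/-- A special subvariety of `Y(1)^n = ℂ^n` of dimension `r` (with more constants allowed): a map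
`cls` from the coordinates onto `r` classes (`none` for constant coordinates), an integral matrix
of positive determinant for every coordinate, and a constant for every coordinate, which is a
special point or integral over `Λ`. -/
structure SpecialVariety {Λ : Type} [CommRing Λ] (f : Λ →+* ℂ) (n r : ℕ) where
  cls : Fin n → Option (Fin r)
  surj : ∀ l : Fin r, ∃ i, cls i = some l
  mat : Fin n → Matrix (Fin 2) (Fin 2) ℤ
  det_pos : ∀ i, 0 < (mat i).det
  const : Fin n → ℂ
  allowed : ∀ i, (∃ τ : ℍ, IsCM τ ∧ const i = jj τ) ∨ f.IsIntegralElem (const i)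

/-- The points of the special subvariety: the constant coordinates are the given constants, and the
coordinates of class `l` are `j (g_i z_l)`, with a free parameter `z_l` in the upper half plane. -/
def SpecialVariety.locus {Λ : Type} [CommRing Λ] {f : Λ →+* ℂ} {n r : ℕ}
    (Z : SpecialVariety f n r) : Set (Fin n → ℂ) :=
  {x | ∃ z : Fin r → ℍ, ∀ i, (Z.cls i = none → x i = Z.const i) ∧
    ∀ l, Z.cls i = some l → ∃ w : ℍ,
      (w : ℂ) * (Z.mat i 1 0 * z l + Z.mat i 1 1) = Z.mat i 0 0 * z l + Z.mat i 0 1 ∧
      x i = jj w}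

/-- `X` has no intersection of dimension larger than `r + m - n` with special subvarieties `Z` of
dimension `r`: every irreducible closed subset `A` of `X ∩ Z` has dimension at most `r + m - n`, and
every point of `X ∩ Z` has transcendence degree at most `r + m - n` over `K`. -/
def NoAtypical {Λ : Type} [CommRing Λ] (f : Λ →+* ℂ) (K : Subfield ℂ) {n : ℕ} (m : ℕ)
    (X : Set (Fin n → ℂ)) : Prop :=
  ∀ (r : ℕ) (Z : SpecialVariety f n r),
    (∀ A ⊆ X ∩ Z.locus, zcl A ⊆ A → (idealOf A).IsPrime →
      zdim A + (n : Cardinal) ≤ (r : Cardinal) + (m : Cardinal)) ∧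
    ∀ x ∈ X ∩ Z.locus, ∀ S : Finset (Fin n), AlgebraicIndependent K (fun i : S => x i) →
      S.card + n ≤ r + m

/-- the value at `t` of a polynomial with coefficients in `K` -/
noncomputable def evalAt (K : Subfield ℂ) (t : ℂ) : Polynomial K →+* ℂ :=
  (Polynomial.aeval t : Polynomial K →ₐ[K] ℂ).toRingHom

/-- `y` is a vector of homogeneous coordinates of a point of the member `B_t` of the family of
projective algebraic sets defined by the forms `G k`. -/
def OnB {K : Subfield ℂ} (t : ℂ) {N : ℕ} {κ : Type}
    (G : κ → MvPolynomial (Fin (N + 1)) (Polynomial K)) (y : Fin (N + 1) → ℂ) : Prop :=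
  y ≠ 0 ∧ ∀ k, eval₂ (evalAt K t) y (G k) = 0

/-- The divisors of the `A i / B i` are in general position at `t`: no point of `B_t` lies on
`m + 1` of them. -/
def InGeneralPosition {K : Subfield ℂ} (t : ℂ) {N n : ℕ} {κ : Type} (m : ℕ)
    (G : κ → MvPolynomial (Fin (N + 1)) (Polynomial K))
    (A B : Fin n → MvPolynomial (Fin (N + 1)) (Polynomial K)) : Prop :=
  ∀ I : Finset (Fin n), I.card = m + 1 → ∀ y : Fin (N + 1) → ℂ, OnB t G y →
    ∃ i ∈ I, eval₂ (evalAt K t) y (A i) * eval₂ (evalAt K t) y (B i) ≠ 0

/-- The value at `(s, x)` of a polynomial `R = ∑ r_u (J) S^u` in two variables `S` and `J`. -/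
noncomputable def valueAt {K : Subfield ℂ} (R : Polynomial (Polynomial K)) (s x : ℂ) : ℂ :=
  Polynomial.eval₂ (Polynomial.aeval x : Polynomial K →ₐ[K] ℂ).toRingHom s R

/-- The member `X_t` of the family of subsets of `Y(1)^n`: the points `x` over which there are
values `s_i` of the functions on the factors of the product of modular curves, with
`c_i (t) s_i = A_i (y) / B_i (y)` for a point `y` of `B_t`. -/
def scaledImage {K : Subfield ℂ} (t : ℂ) {N n : ℕ} {κ : Type}
    (G : κ → MvPolynomial (Fin (N + 1)) (Polynomial K))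
    (A B : Fin n → MvPolynomial (Fin (N + 1)) (Polynomial K))
    (R : Fin n → Polynomial (Polynomial K)) (c : Fin n → Polynomial K) : Set (Fin n → ℂ) :=
  {x | ∃ y, OnB t G y ∧ ∃ s : Fin n → ℂ, ∀ i, valueAt (R i) (s i) (x i) = 0 ∧
    evalAt K t (c i) * eval₂ (evalAt K t) y (B i) * s i = eval₂ (evalAt K t) y (A i)}

/-- The order of the zero of `c` at the complex number `α`. -/
noncomputable def order {K : Subfield ℂ} (c : Polynomial K) (α : ℂ) : ℕ :=
  (c.map (algebraMap K ℂ)).rootMultiplicity α

/-- The excess of the intersections of `X` with special subvarieties `Z` is at most `m / L`: every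
irreducible closed subset `A` of `X ∩ Z` has dimension at most `dim Z + m - n + m / L`, and every
point of `X ∩ Z` has transcendence degree at most `dim Z + m - n + m / L` over `K`. -/
def SmallExcess {Λ : Type} [CommRing Λ] (f : Λ →+* ℂ) (K : Subfield ℂ) {n : ℕ} (L m : ℕ)
    (X : Set (Fin n → ℂ)) : Prop :=
  ∀ (r : ℕ) (Z : SpecialVariety f n r),
    (∀ A ⊆ X ∩ Z.locus, zcl A ⊆ A → (idealOf A).IsPrime →
      (L : Cardinal) * (zdim A + (n : Cardinal)) ≤
        (L : Cardinal) * (r : Cardinal) + ((L : Cardinal) + 1) * (m : Cardinal)) ∧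
    ∀ x ∈ X ∩ Z.locus, ∀ S : Finset (Fin n), AlgebraicIndependent K (fun i : S => x i) →
      L * (S.card + n) ≤ L * r + (L + 1) * m

/-- The orders of the zeros of the `c i` at the elements of the sets `D l` are positive, and they are
independent modulo squares at any `L + 1` elements `α l` of different sets: if `A l` are sets of
coordinates with an even number of elements, not all empty, and every coordinate lies in an even
number of them, then `q ∏_l ∏_{i ∈ A l} order (c i) (α l)` is not a square, for any positive integer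
`q` which is at most `T` to the power `2 ∑ |A l|` and has no prime factor larger than `T`. -/
def IndependentOrders {K : Subfield ℂ} {n M : ℕ} (L T : ℕ) (c : Fin n → Polynomial K)
    (D : Fin M → Set ℂ) : Prop :=
  (∀ l, ∀ α ∈ D l, ∀ i, 0 < order (c i) α) ∧
  ∀ (f : Fin (L + 1) → Fin M) (α : Fin (L + 1) → ℂ), Function.Injective f → (∀ l, α l ∈ D (f l)) →
    ∀ A : Fin (L + 1) → Finset (Fin n), (∃ l, (A l).Nonempty) → (∀ l, Even (A l).card) →
    (∀ i, Even (Finset.univ.filter fun l => i ∈ A l).card) →
    ∀ q, 0 < q → (∀ p, p.Prime → p ∣ q → p ≤ T) → q ≤ T ^ (2 * ∑ l, (A l).card) →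
      ¬ IsSquare (q * ∏ l, ∏ i ∈ A l, order (c i) (α l))

/-- A one-parameter family of subsets of `Y(1)^n` over the countable field `K`, which degenerates at
the roots of the nonconstant integral polynomials `P l`, `l < M`. -/
structure Family (K : Subfield ℂ) (n m L : ℕ) where
  N : ℕ
  M : ℕ
  T : ℕ
  κ : Type
  finite : Finite κ
  G : κ → MvPolynomial (Fin (N + 1)) (Polynomial K)
  A : Fin n → MvPolynomial (Fin (N + 1)) (Polynomial K)
  B : Fin n → MvPolynomial (Fin (N + 1)) (Polynomial K)
  δ : Fin n → ℕ
  R : Fin n → Polynomial (Polynomial K)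
  c : Fin n → Polynomial K
  P : Fin M → Polynomial ℤ
  homG : ∀ k, ∃ e, (G k).IsHomogeneous e
  homA : ∀ i, (A i).IsHomogeneous (δ i)
  homB : ∀ i, (B i).IsHomogeneous (δ i)
  monic : ∀ i, (R i).Monic
  bound : ∀ i u w, ((R i).coeff u).coeff w ≠ 0 → u ≤ T ∧ w ≤ T
  nonconst : ∀ l, 0 < (P l).natDegree
  orders : IndependentOrders L T c fun l => {α : ℂ | Polynomial.aeval α (P l) = 0}
  position : ∀ l, ∀ α : ℂ, Polynomial.aeval α (P l) = 0 → InGeneralPosition α m G A B

/-- The member `X_t` of the family. -/
def Family.member {K : Subfield ℂ} {n m L : ℕ} (F : Family K n m L) (t : ℂ) : Set (Fin n → ℂ) :=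
  scaledImage t F.G F.A F.B F.R F.c

/-- The Zilber-Pink statement for the member `X_t`: the excess of its intersections with the special
subvarieties of `Y(1)^n` is at most `m / L`, and for `m < L` there is no atypical intersection. The
constants of the special subvarieties are special points or integral over the ring generated by
`Γ`. -/
def Family.Good {K : Subfield ℂ} {n m L : ℕ} (F : Family K n m L) (Γ : Finset ℂ) (t : ℂ) : Prop :=
  SmallExcess (algebraMap (Algebra.adjoin ℤ (Γ : Set ℂ)) ℂ) K L m (F.member t) ∧
    (m < L → NoAtypical (algebraMap (Algebra.adjoin ℤ (Γ : Set ℂ)) ℂ) K m (F.member t))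

/-- Any `M - L` of the polynomials `P l` have together at least `ω` different complex roots. -/
def Family.HasRoots {K : Subfield ℂ} {n m L : ℕ} (F : Family K n m L) (ω : ℕ) : Prop :=
  ∀ I : Finset (Fin F.M), F.M ≤ I.card + L →
    ω ≤ {α : ℂ | ∃ l ∈ I, Polynomial.aeval α (F.P l) = 0}.ncard

end Pool.Agent.D0H3.ZPM
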