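import Pool.Agent.Y199.SG.ZPY
import Pool.Agent.R424.FD.EllC
import Pool.Agent.D0H3.ZPM.Defs

/-!
Local criterion for one-parameter families of subsets of `Y(1)^n` with few degenerate members (helper
file, adapted from `Pool.Agent.Y199.SG.ZPY` and `Pool.Agent.R424.FD.EllC`).
-/

set_option autoImplicit false

namespace Pool.Agent.D0H3.ZPM

open H294ZP UpperHalfPlane MvPolynomial Pool.Agent.W282.ZP Pool.Agent.Y152.BD Pool.Agent.Y910.Z
  Pool.Agent.Y199.SG
open Pool.Agent.R424.FD (Indep coreE lt_excess toNat_mul')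

/-- The class relation of the points of a special subvariety. -/
theorem rel_of_locus {Λ : Type} [CommRing Λ] {f : Λ →+* ℂ} {n r : ℕ} (Z : SpecialVariety f n r)
    {x : Fin n → ℂ} (hx : x ∈ Z.locus) (i j : Fin n) (l : Fin r) (hi : Z.cls i = some l)
    (hj : Z.cls j = some l) : IsIntegral (Algebra.adjoin ℤ {x i}) (x j) ∧
      Polynomial.eval₂ (Polynomial.aeval (x i) : Polynomial ℂ →ₐ[ℂ] ℂ).toRingHom (x j)
        (Psi ((Z.mat i).det * (Z.mat j).det).toNat) = 0 := by
  obtain ⟨z, hz⟩ := hx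
  obtain ⟨w, hw, hxw⟩ := (hz i).2 l hi
  obtain ⟨w', hw', hxw'⟩ := (hz j).2 l hj
  refine ⟨?_, ?_⟩
  · obtain ⟨a, b, c, d, e1, e2⟩ := isogeny_rel (Z.det_pos i) hw hw'
    rw [hxw, hxw']
    exact isogenous_integral w w' a b c d (by
      rw [e1]
      exact mul_pos (Z.det_pos i) (Z.det_pos j)) e2
  · rw [← eval_relPoly]
    exact eval_relPoly_eq_zero (Z.det_pos i) (Z.det_pos j) hw hw' hxw hxw'

/-- The local criterion with `L + 1` places. -/
theorem criterion (K : Subfield ℂ) [Countable K] (κ : Type) [Finite κ] (N n m M L T : ℕ)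
    (G : κ → MvPolynomial (Fin (N + 1)) (Polynomial K)) (hG : ∀ k, ∃ e, (G k).IsHomogeneous e)
    (A B : Fin n → MvPolynomial (Fin (N + 1)) (Polynomial K)) (δ : Fin n → ℕ)
    (hA : ∀ i, (A i).IsHomogeneous (δ i)) (hB : ∀ i, (B i).IsHomogeneous (δ i))
    (R : Fin n → Polynomial (Polynomial K)) (hR : ∀ i, (R i).Monic)
    (hT : ∀ i u w, ((R i).coeff u).coeff w ≠ 0 → u ≤ T ∧ w ≤ T)
    (c : Fin n → Polynomial K) (D : Fin M → Finset ℂ) (hD : ∀ l, ∀ α ∈ D l, IsAlgebraic K α)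
    (hind : IndependentOrders L T c fun l => (D l : Set ℂ))
    (hpos : ∀ l, ∀ α ∈ D l, InGeneralPosition α m G A B)
    (Γ : Finset ℂ) (hΓ : ∀ γ ∈ Γ, IsAlgebraic K γ) (hne : ∃ l, (D l).Nonempty) :
    ∃ W₁ : Finset ℂ, ∀ t : ℂ, IsAlgebraic K t →
      (∃ f : Fin (L + 1) → Fin M, Function.Injective f ∧
        ∀ l, ∃ a ∈ D (f l), ∃ V : ValuationSubring ℂ, (∀ z ∈ W₁, z ∈ V) ∧
          V.valuation (t - a) < 1) →
      SmallExcess (algebraMap (Algebra.adjoin ℤ (Γ : Set ℂ)) ℂ) K L m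
        (scaledImage t G A B R c) ∧
      (m < L → NoAtypical (algebraMap (Algebra.adjoin ℤ (Γ : Set ℂ)) ℂ) K m
        (scaledImage t G A B R c)) := by
  classical
  let k := algebraicClosure K ℂ
  have hcl : IsAlgClosure K k := inferInstance
  have hac : IsAlgClosed k := hcl.isAlgClosed
  have hc0k : CharZero k := inferInstance
  let φ : Polynomial K →+* Polynomial k := Polynomial.mapRingHom (algebraMap K k)
  have hev : ∀ (t : k), (algebraMap k ℂ).comp ((Polynomial.evalRingHom t).comp φ) =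
      evalAt K (algebraMap k ℂ t) := by
    intro t
    refine Polynomial.ringHom_ext (fun a => ?_) ?_
    · simp only [φ, evalAt, RingHom.comp_apply, Polynomial.coe_mapRingHom, Polynomial.map_C,
        Polynomial.coe_evalRingHom, Polynomial.eval_C, AlgHom.toRingHom_eq_coe, RingHom.coe_coe,
        Polynomial.aeval_C]
      rfl
    · simp only [φ, evalAt, RingHom.comp_apply, Polynomial.coe_mapRingHom, Polynomial.map_X,
        Polynomial.coe_evalRingHom, Polynomial.eval_X, AlgHom.toRingHom_eq_coe, RingHom.coe_coe,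
        Polynomial.aeval_X]
  have hspec : ∀ (t : k) (P : MvPolynomial (Fin (N + 1)) (Polynomial K)) (y : Fin (N + 1) → ℂ),
      aeval y (TH526.ZL.spec t (MvPolynomial.map φ P)) =
        eval₂ (evalAt K (algebraMap k ℂ t)) y P := by
    intro t P y
    rw [TH526.ZL.spec, MvPolynomial.map_map, aeval_def, eval₂_map, hev]
  have hmult : ∀ (α : k) (i : Fin n), (φ (c i)).rootMultiplicity α =
      order (c i) (algebraMap k ℂ α) := by
    intro α i
    have h1 := Polynomial.eq_rootMultiplicity_map (p := φ (c i)) (f := algebraMap k ℂ)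
      (algebraMap k ℂ).injective α
    rw [h1]
    simp only [φ, order, Polynomial.coe_mapRingHom, Polynomial.map_map]
    rfl
  -- finite sets of algebraic numbers
  have hlift : ∀ S : Finset ℂ, (∀ z ∈ S, IsAlgebraic K z) → ∃ S' : Finset k,
      (∀ z : k, z ∈ S' ↔ algebraMap k ℂ z ∈ S) ∧
      algebraMap k ℂ '' (S' : Set k) = (S : Set ℂ) := by
    intro S hS
    have hmem : ∀ z ∈ S, z ∈ algebraicClosure K ℂ := fun z hz =>
      mem_algebraicClosure_iff'.2 (hS z hz).isIntegral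
    have h1 : ∀ z : k, z ∈ (S.attach.image fun z => (⟨z.1, hmem z.1 z.2⟩ : k)) ↔
        algebraMap k ℂ z ∈ S := by
      intro z
      constructor
      · intro hz
        obtain ⟨w, _, hw⟩ := Finset.mem_image.1 hz
        rw [← hw]
        exact w.2
      · intro hz
        exact Finset.mem_image.2 ⟨⟨z.1, hz⟩, Finset.mem_attach _ _, rfl⟩
    refine ⟨S.attach.image fun z => ⟨z.1, hmem z.1 z.2⟩, h1, ?_⟩
    ext z
    constructor
    · rintro ⟨w, hw, rfl⟩
      exact (h1 w).1 hw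
    · intro hz
      exact ⟨⟨z, hmem z hz⟩, (h1 _).2 hz, rfl⟩
  obtain ⟨Γf, -, hΓf⟩ := hlift Γ hΓ
  let Γ' : Set k := (Γf : Set k)
  have hΓ' : algebraMap k ℂ '' Γ' = (Γ : Set ℂ) := hΓf
  choose D' hD' hD'im using fun l => hlift (D l) (hD l)
  let Rt : Finset k := Finset.univ.biUnion D'
  have hRt : ∀ α : k, α ∈ Rt ↔ ∃ l, α ∈ D' l := by
    intro α
    simp only [Rt, Finset.mem_biUnion, Finset.mem_univ, true_and]
  let ρt : Fin Rt.card → k := fun l => (Rt.equivFin.symm l : k)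
  have hρ : ∀ α ∈ Rt, ∃ l, ρt l = α := by
    intro α hα
    refine ⟨Rt.equivFin ⟨α, hα⟩, ?_⟩
    simp [ρt]
  have hρ' : ∀ l, ρt l ∈ Rt := fun l => (Rt.equivFin.symm l).2
  have hc0 : ∀ i, φ (c i) ≠ 0 := by
    intro i h0
    obtain ⟨l, z, hz⟩ := hne
    have h2 : z ∈ algebraMap k ℂ '' (D' l : Set k) := by
      rw [hD'im]
      exact hz
    obtain ⟨α₀, hα₀, rfl⟩ := h2
    have h1 : 0 < order (c i) (algebraMap k ℂ α₀) := hind.1 l _ (Finset.mem_coe.2 hz) i
    rw [← hmult, h0, Polynomial.rootMultiplicity_zero] at h1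
    exact lt_irrefl _ h1
  obtain ⟨W₀, hW₀, hΓW₀, hnear₀⟩ := nearV (k := k) (m := m) (M := Rt.card)
    (fun i => MvPolynomial.map φ (G i))
    (fun i => by
      obtain ⟨e, he⟩ := hG i
      exact ⟨e, he.map _⟩)
    (fun i => MvPolynomial.map φ (A i)) (fun i => MvPolynomial.map φ (B i)) δ
    (fun i => (hA i).map _) (fun i => (hB i).map _)
    (fun i => (R i).map φ) (fun i => φ (c i)) ρt hc0
    (fun l I hI y h1 h2 => by
      by_contra h0
      obtain ⟨l', hl'⟩ := (hRt _).1 (hρ' l)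
      obtain ⟨i, hi, h3⟩ := hpos l' _ ((hD' _ _).1 hl') I hI y ⟨h0, fun i => by
        have h4 := h1 i
        rw [hspec] at h4
        exact h4⟩
      apply h3
      have h4 := h2 i hi
      rw [hspec, hspec] at h4
      exact h4)
    Γ' (Set.toFinite _)
  -- the finite set of coefficients, with the degenerate parameters
  let W : Finset k := hW₀.toFinset ∪ Rt
  have hW₀W : ∀ z ∈ W₀, z ∈ (W : Set k) := by
    intro z hz
    simp only [W, Finset.coe_union, Set.mem_union, Finset.mem_coe, Set.Finite.mem_toFinset]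
    exact Or.inl hz
  have hRtW : ∀ z ∈ Rt, z ∈ (W : Set k) := by
    intro z hz
    simp only [W, Finset.coe_union, Set.mem_union, Finset.mem_coe]
    exact Or.inr hz
  have hnear : ∀ V : ValuationSubring ℂ, (∀ z ∈ (W : Set k), algebraMap k ℂ z ∈ V) → _ :=
    fun V hV => hnear₀ V fun z hz => hV z (hW₀W z hz)
  have hRk : ∀ i, ((R i).map φ).Monic := fun i => (hR i).map _
  have hTk : ∀ i u w, (((R i).map φ).coeff u).coeff w ≠ 0 → u ≤ T ∧ w ≤ T := by
    intro i u w h0
    rw [Polynomial.coeff_map] at h0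
    change ((Polynomial.mapRingHom (algebraMap K k)) ((R i).coeff u)).coeff w ≠ 0 at h0
    rw [Polynomial.coe_mapRingHom, Polynomial.coeff_map] at h0
    exact hT i u w fun h1 => h0 (by rw [h1, map_zero])
  -- the relations at a point
  have hdata : ∀ (t' : k) (r : ℕ)
      (Z : SpecialVariety (algebraMap (Algebra.adjoin ℤ (Γ : Set ℂ)) ℂ) n r) (x s : Fin n → ℂ)
      (y : Fin (N + 1) → ℂ), x ∈ Z.locus → OnB (algebraMap k ℂ t') G y →
      (∀ i, valueAt (R i) (s i) (x i) = 0 ∧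
        evalAt K (algebraMap k ℂ t') (c i) * eval₂ (evalAt K (algebraMap k ℂ t')) y (B i) * s i =
          eval₂ (evalAt K (algebraMap k ℂ t')) y (A i)) →
      (∀ i, Z.cls i = none → IsIntegral (Algebra.adjoin ℤ (algebraMap k ℂ '' Γ')) (x i)) ∧
      (∀ i, Polynomial.eval₂ (Polynomial.aeval (x i) : Polynomial k →ₐ[k] ℂ).toRingHom (s i)
        ((R i).map φ) = 0) ∧
      (∀ i, aeval y (TH526.ZL.spec t' (MvPolynomial.map φ (G i))) = 0) ∧
      (∀ i, algebraMap k ℂ ((φ (c i)).eval t') *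
        aeval y (TH526.ZL.spec t' (MvPolynomial.map φ (B i))) * s i =
        aeval y (TH526.ZL.spec t' (MvPolynomial.map φ (A i)))) := by
    intro t' r Z x s y hxZ hy hxy
    refine ⟨fun i hi => ?_, fun i => ?_, fun i => ?_, fun i => ?_⟩
    · obtain ⟨z, hz⟩ := hxZ
      rw [hΓ', (hz i).1 hi]
      rcases Z.allowed i with ⟨τ, hτ, hc⟩ | h
      · rw [hc]
        exact (singular_modulus_integral τ hτ).tower_top
      · exact h
    · rw [Polynomial.eval₂_map]
      have h1 : ((Polynomial.aeval (x i) : Polynomial k →ₐ[k] ℂ).toRingHom).comp φ =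
          (Polynomial.aeval (x i) : Polynomial K →ₐ[K] ℂ).toRingHom := by
        ext z
        · simp [φ]
        · simp [φ]
      rw [h1]
      exact (hxy i).1
    · rw [hspec]
      exact hy.2 i
    · rw [hspec, hspec]
      have h1 : algebraMap k ℂ ((φ (c i)).eval t') = evalAt K (algebraMap k ℂ t') (c i) := by
        rw [← hev t']
        rfl
      rw [h1]
      exact (hxy i).2
  have hΓV : ∀ V : ValuationSubring ℂ, (∀ z ∈ (W : Set k), algebraMap k ℂ z ∈ V) →
      ∀ z ∈ Γ', algebraMap k ℂ z ∈ V := fun V hV z hz => hV z (hW₀W z (hΓW₀ hz))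
  -- the data at the places
  have hplace : ∀ (t : k) {L : ℕ} (f : Fin L → Fin M)
      (_ : ∀ l, ∃ a ∈ D' (f l), ¬ Bad (W : Set k) t a)
      (ρ : Type) (x : ρ → ℂ), AlgebraicIndependent k x →
      ∀ l, ∃ (V : ValuationSubring ℂ) (α : k), α ∈ D' (f l) ∧
        V.valuation (algebraMap k ℂ (t - α)) < 1 ∧
        (∀ z ∈ (W : Set k), algebraMap k ℂ z ∈ V) ∧ ∀ j, x j ∈ V := by
    intro t L f hp ρ x hx l
    obtain ⟨a, ha, hbad⟩ := hp l
    obtain ⟨V, h1, h2, h3⟩ := exists_place (W : Set k) (hRtW a ((hRt a).2 ⟨_, ha⟩)) hbad x hx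
    exact ⟨V, a, ha, h1, h2, h3⟩
  have hnear' : ∀ (V : ValuationSubring ℂ) (_ : ∀ z ∈ (W : Set k), algebraMap k ℂ z ∈ V)
      (l : Fin M) (α : k) (_ : α ∈ D' l) (τ : k)
      (_ : V.valuation (algebraMap k ℂ (τ - α)) < 1)
      (s : Fin n → ℂ) (y : Fin (N + 1) → ℂ), y ≠ 0 →
      (∀ i, aeval y (TH526.ZL.spec τ (MvPolynomial.map φ (G i))) = 0) →
      (∀ i, algebraMap k ℂ ((φ (c i)).eval τ) *
        aeval y (TH526.ZL.spec τ (MvPolynomial.map φ (B i))) * s i =
        aeval y (TH526.ZL.spec τ (MvPolynomial.map φ (A i)))) →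
      ∃ E : Finset (Fin n), E.card ≤ m ∧ ∀ i, i ∉ E → V.valuation (s i) *
        V.valuation (algebraMap k ℂ (τ - α)) ^ (φ (c i)).rootMultiplicity α = 1 := by
    intro V hV l α hα τ hτ s y hy h1 h2
    obtain ⟨l', hl'⟩ := hρ α ((hRt α).2 ⟨l, hα⟩)
    have h3 := (hnear V hV).2 l' τ (by rw [hl']; exact hτ) s y hy h1 h2
    rw [hl'] at h3
    exact h3
  -- the conclusion
  have core1 : ∀ (t : k), (∃ f : Fin (L + 1) → Fin M, Function.Injective f ∧
      ∀ l, ∃ a ∈ D' (f l), ¬ Bad (W : Set k) t a) →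
      ∀ (r : ℕ) (Z : SpecialVariety (algebraMap (Algebra.adjoin ℤ (Γ : Set ℂ)) ℂ) n r),
      ∀ x ∈ scaledImage (algebraMap k ℂ t) G A B R c ∩ Z.locus,
        ∀ S : Finset (Fin n),
        AlgebraicIndependent K (fun i : S => x i) → L * (S.card + n) ≤ L * r + (L + 1) * m := by
    rintro t ⟨f, hf, hp⟩ r Z x ⟨⟨y, hy, s, hxy⟩, hxZ⟩ S hS
    have hSk : AlgebraicIndependent k (fun i : S => x i) := hS.extendScalars k
    choose V α hα hV1 hVW hVx using hplace t f hp S _ hSk
    obtain ⟨h1, h2, h3, h4⟩ := hdata t r Z x s y hxZ hy hxy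
    refine coreE (m := m) (T := T) (fun i => (R i).map φ) hRk hTk
      (fun l i => (φ (c i)).rootMultiplicity (α l))
      (fun l i => by
        rw [hmult]
        exact hind.1 (f l) _ (Finset.mem_coe.2 ((hD' _ _).1 (hα l))) i)
      (by
        have h5 := hind.2 f (fun l => algebraMap k ℂ (α l)) hf
          (fun l => Finset.mem_coe.2 ((hD' _ _).1 (hα l)))
        intro A' hA1 hA2 hA3 q hq hqp hqT
        have h6 := h5 A' hA1 hA2 hA3 q hq hqp hqT
        simp only [← hmult] at h6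
        exact h6)
      Z.cls (fun i => (Z.mat i).det.toNat) x s
      (fun i => by
        have := Z.det_pos i
        omega)
      (fun i hi => alg_of_int Γ' (h1 i hi)) (fun i j l hi hj => by
        have h5 := rel_of_locus Z hxZ i j l hi hj
        rw [toNat_mul' (Z.det_pos i) (Z.det_pos j)] at h5
        exact h5)
      h2 S hSk V
      (fun l => (V l).valuation (algebraMap k ℂ (t - α l))) hV1
      (fun l i hi => v_le_of_int Γ' (V l) (hΓV _ (hVW l)) (h1 i hi))
      (fun l => (hnear (V l) (hVW l)).1) hVx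
      (fun l => hnear' (V l) (hVW l) (f l) (α l) (hα l) _ (hV1 l) s y hy.1 h3 h4)
  have hplaces : ∀ (t : k) (l : Fin M), (∃ a ∈ D l, ∃ V : ValuationSubring ℂ,
      (∀ z ∈ W.image (algebraMap k ℂ), z ∈ V) ∧ V.valuation (algebraMap k ℂ t - a) < 1) →
      ∃ a ∈ D' l, ¬ Bad (W : Set k) t a := by
    rintro t l ⟨a, ha, V, hV, hlt⟩
    have h1 : a ∈ algebraMap k ℂ '' (D' l : Set k) := by
      rw [hD'im]
      exact ha
    obtain ⟨a', ha', rfl⟩ := h1
    exact ⟨a', ha', not_bad (W : Set k) t a' V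
      (fun z hz => hV _ (Finset.mem_image_of_mem _ (Finset.mem_coe.1 hz)))
      (hRtW a' ((hRt a').2 ⟨l, ha'⟩)) hlt⟩
  have hmemk : ∀ t : ℂ, IsAlgebraic K t → ∃ t' : k, algebraMap k ℂ t' = t := fun t ht =>
    ⟨⟨t, mem_algebraicClosure_iff'.2 ht.isIntegral⟩, rfl⟩
  refine ⟨W.image (algebraMap k ℂ), fun t ht hf => ?_⟩
  obtain ⟨t', rfl⟩ := hmemk t ht
  obtain ⟨f, hf1, hf2⟩ := hf
  have hpt := core1 t' ⟨f, hf1, fun l => hplaces t' (f l) (hf2 l)⟩
  refine ⟨fun r Z => ⟨?_, hpt r Z⟩, fun hL r Z => ⟨?_, fun x hx S hS =>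
    lt_excess hL (hpt r Z x hx S hS)⟩⟩
  · intro A' hA' hcl' hprime
    obtain ⟨x, hxW, T', hT', hdim⟩ := Pool.Agent.W466.ZC.generic_dim K A' hprime hcl'
    have h2 := hpt r Z x (hA' hxW) T' hT'
    calc (L : Cardinal) * (zdim A' + (n : Cardinal)) ≤
          (L : Cardinal) * ((T'.card : Cardinal) + (n : Cardinal)) := by gcongr
      _ = ((L * (T'.card + n) : ℕ) : Cardinal) := by push_cast; rfl
      _ ≤ ((L * r + (L + 1) * m : ℕ) : Cardinal) := by exact_mod_cast h2
      _ = (L : Cardinal) * (r : Cardinal) + ((L : Cardinal) + 1) * (m : Cardinal) := by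
          push_cast; rfl
  · intro A' hA' hcl' hprime
    obtain ⟨x, hxW, T', hT', hdim⟩ := Pool.Agent.W466.ZC.generic_dim K A' hprime hcl'
    have h2 := lt_excess hL (hpt r Z x (hA' hxW) T' hT')
    calc zdim A' + (n : Cardinal) ≤ (T'.card : Cardinal) + (n : Cardinal) := by gcongr
      _ = ((T'.card + n : ℕ) : Cardinal) := by push_cast; rfl
      _ ≤ ((r + m : ℕ) : Cardinal) := by exact_mod_cast h2
      _ = (r : Cardinal) + (m : Cardinal) := by push_cast; rfl

end Pool.Agent.D0H3.ZPM
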