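import Pool.Agent.D0H63.MR.RatC

/-!
Rational approximations of real numbers and sparse sets of rational numbers (helper file).
-/

set_option autoImplicit false

namespace Pool.Agent.D0H3.ZPM

open Filter Set MeasureTheory

/-- There are finitely many rational numbers with bounded denominators in a bounded set. -/
theorem finite_den (ξ C τ : ℝ) (hτ : 0 ≤ τ) (B : ℕ) :
    {x : ℚ | |ξ - x| ≤ C * (x.den : ℝ) ^ (-τ) ∧ x.den ≤ B}.Finite := by
  obtain ⟨R, hR⟩ := exists_nat_ge ((|ξ| + |C|) * B)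
  refine Set.Finite.of_injOn (f := fun x : ℚ => (x.num, x.den)) (t := Set.Icc (-(R : ℤ)) R ×ˢ Set.Iic B) ?_ ?_
    ((Set.finite_Icc _ _).prod (Set.finite_Iic _))
  · rintro x ⟨h1, h2⟩
    have hd : (1 : ℝ) ≤ x.den := by exact_mod_cast x.pos
    have h3 : (x.den : ℝ) ^ (-τ) ≤ 1 := Real.rpow_le_one_of_one_le_of_nonpos hd (by linarith)
    have h3' : 0 ≤ (x.den : ℝ) ^ (-τ) := by positivity
    have h4 : |ξ - x| ≤ |C| := by
      refine h1.trans ?_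
      calc C * (x.den : ℝ) ^ (-τ) ≤ |C| * (x.den : ℝ) ^ (-τ) :=
            mul_le_mul_of_nonneg_right (le_abs_self C) h3'
        _ ≤ |C| * 1 := mul_le_mul_of_nonneg_left h3 (abs_nonneg C)
        _ = |C| := mul_one _
    have h5 : |(x : ℝ)| ≤ |ξ| + |C| := by
      have h6 : (x : ℝ) = ξ - (ξ - x) := by ring
      rw [h6]
      exact (abs_sub _ _).trans (by linarith)
    have h6 : |(x.num : ℝ)| ≤ R := by
      have h7 : (x.num : ℝ) = x * x.den := by exact_mod_cast (Rat.mul_den_eq_num x).symm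
      rw [h7, abs_mul, abs_of_pos (by linarith : (0 : ℝ) < x.den)]
      refine le_trans ?_ hR
      have h8 : (x.den : ℝ) ≤ B := by exact_mod_cast h2
      exact mul_le_mul h5 h8 (by positivity) (by positivity)
    refine ⟨?_, h2⟩
    have h9 := abs_le.1 h6
    exact ⟨by exact_mod_cast h9.1, by exact_mod_cast h9.2⟩
  · intro x _ y _ hxy
    simp only [Prod.mk.injEq] at hxy
    exact Rat.ext hxy.1 hxy.2

/-- An infinite set of approximations has elements with large denominators. -/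
theorem exists_large {𝓐 : Set ℚ} (ξ C τ : ℝ) (hτ : 0 ≤ τ)
    (h : {x : ℚ | x ∈ 𝓐 ∧ |ξ - x| ≤ C * (x.den : ℝ) ^ (-τ)}.Infinite) (B : ℕ) :
    ∃ x ∈ 𝓐, |ξ - x| ≤ C * (x.den : ℝ) ^ (-τ) ∧ B < x.den := by
  obtain ⟨x, hx, hx'⟩ := h.exists_notMem_finite (finite_den ξ C τ hτ B)
  refine ⟨x, hx.1, hx.2, ?_⟩
  by_contra hcon
  exact hx' ⟨hx.2, not_lt.1 hcon⟩

/-- the small distances tend to zero -/
theorem tendsto_small (C τ : ℝ) (hτ : 0 < τ) :
    Tendsto (fun q : ℕ => C * (q : ℝ) ^ (-τ)) atTop (nhds 0) := by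
  have h1 : Tendsto (fun q : ℕ => (q : ℝ) ^ (-τ)) atTop (nhds 0) :=
    (tendsto_rpow_neg_atTop hτ).comp tendsto_natCast_atTop_atTop
  simpa using h1.const_mul C

theorem metric (𝓑 : Set ℚ) {s τ : ℝ} (hs : 0 ≤ s) (hτ : 0 < τ)
    (h : ∀ δ : ℝ, 0 < δ → δ ≤ 1 → ∀ κ : ℕ, 1 ≤ κ → ∃ (C : ℝ) (N₀ : ℕ), ∀ N : ℕ, N₀ ≤ N →
      ∀ S : Finset ℚ, (∀ x ∈ S, x ∈ 𝓑 ∧ 0 < x ∧ N ≤ κ * x.den ∧ x.den ≤ κ * N ∧
        N ≤ κ * x.num.natAbs ∧ x.num.natAbs ≤ κ * N) → (S.card : ℝ) ≤ C * (N : ℝ) ^ (s + δ)) :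
    dimH {ξ : ℝ | 0 < ξ ∧ ∃ C : ℝ, {x : ℚ | x ∈ 𝓑 ∧ |ξ - x| ≤ C * (x.den : ℝ) ^ (-τ)}.Infinite} ≤
      ENNReal.ofReal (s / τ) := by
  classical
  let W : ℝ → Set (Fin (1 + 1) → ℕ) := fun _ =>
    {t | ∃ x : ℚ, x ∈ 𝓑 ∧ 0 < x ∧ x.den = t 0 ∧ x.num.natAbs = t 1}
  have h1 := Pool.Agent.D0H63.MR.rat_const (k := 1) W hs hτ (fun δ hδ hδ1 κ hκ => by
    obtain ⟨C, N₀, hC⟩ := h δ hδ hδ1 κ hκ
    refine ⟨C, N₀, fun N hN => ?_⟩
    have hfin : {t : Fin (1 + 1) → ℕ | (∀ j, N ≤ κ * t j ∧ t j ≤ κ * N) ∧ t ∈ W δ}.Finite := by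
      refine (Set.Finite.pi (fun _ : Fin (1 + 1) => Set.finite_Iic (κ * N))).subset ?_
      intro t ht j _
      exact (ht.1 j).2
    have hx : ∀ t ∈ hfin.toFinset, ∃ x : ℚ, x ∈ 𝓑 ∧ 0 < x ∧ x.den = t 0 ∧ x.num.natAbs = t 1 := by
      intro t ht
      rw [Set.Finite.mem_toFinset] at ht
      exact ht.2
    choose! x hx1 hx2 hx3 hx4 using hx
    have hinj : Set.InjOn x hfin.toFinset := by
      intro t ht t' ht' htt
      rw [Finset.mem_coe] at ht ht'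
      funext j
      fin_cases j
      · have h2 := hx3 t ht
        rw [htt, hx3 t' ht'] at h2
        exact h2.symm
      · have h2 := hx4 t ht
        rw [htt, hx4 t' ht'] at h2
        exact h2.symm
    have h2 := hC N hN (hfin.toFinset.image x) (fun y hy => by
      obtain ⟨t, ht, rfl⟩ := Finset.mem_image.1 hy
      have ht' := ht
      rw [Set.Finite.mem_toFinset] at ht'
      rw [hx3 t ht, hx4 t ht]
      exact ⟨hx1 t ht, hx2 t ht, (ht'.1 0).1, (ht'.1 0).2, (ht'.1 1).1, (ht'.1 1).2⟩)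
    rw [Finset.card_image_of_injOn hinj] at h2
    rw [Set.ncard_eq_toFinset_card _ hfin]
    exact h2)
  have hiso : Isometry (fun x : ℝ => fun _ : Fin 1 => x) :=
    (IsometryEquiv.funUnique (Fin 1) ℝ).symm.isometry
  rw [← hiso.dimH_image]
  refine (dimH_mono ?_).trans h1
  rintro _ ⟨ξ, ⟨hξ, C, hinf⟩, rfl⟩
  refine ⟨fun _ => hξ, ?_⟩
  rintro ⟨δ, hδ, hδ1, h2⟩
  obtain ⟨q₀, hq₀⟩ := eventually_atTop.1 ((h2 C).and ((tendsto_small C τ hτ).eventually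
    (gt_mem_nhds hξ)))
  obtain ⟨x, hx1, hx2, hx3⟩ := exists_large ξ C τ hτ.le hinf q₀
  obtain ⟨h3, h4⟩ := hq₀ x.den hx3.le
  have hx0 : 0 < (x : ℝ) := by
    have := abs_le.1 (hx2.trans h4.le)
    rcases (hx2.trans_lt h4) with h5
    have h6 := abs_lt.1 h5
    linarith [h6.2]
  have hx0' : 0 < x := by exact_mod_cast hx0
  have hnum : (x.num.natAbs : ℤ) = x.num := Int.natAbs_of_nonneg (Rat.num_pos.2 hx0').le
  have hval : (x : ℝ) = (x.num.natAbs : ℝ) / x.den := by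
    have h7 : (x : ℝ) = x.num / x.den := by exact_mod_cast (Rat.num_div_den x).symm
    rw [h7]
    congr 1
    rw [← Int.cast_natCast (R := ℝ) x.num.natAbs, hnum]
  refine h3 ![x.den, x.num.natAbs] rfl (fun j => ?_) ⟨x, hx1, hx0', rfl, rfl⟩
  have hj : j = 0 := Subsingleton.elim _ _
  subst hj
  have h8 : (![x.den, x.num.natAbs] : Fin (1 + 1) → ℕ) (Fin.succ 0) = x.num.natAbs := rfl
  rw [h8, ← hval]
  exact hx2

end Pool.Agent.D0H3.ZPM
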