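import Pool.Agent.Y83.ZPI.Count

/-!
Squarefree divisors and monic transformations of integral polynomials (helper file).
-/

set_option autoImplicit false

open Polynomial Finset

namespace Pool.Agent.D0H3.ZPM

open Pool.Agent.Y83.ZPI (SmoothZ hom hom_eq Bad bad_hom)

theorem clear (g : ℚ[X]) : ∃ (b : ℤ) (G : ℤ[X]), b ≠ 0 ∧
    G.map (Int.castRingHom ℚ) = C (b : ℚ) * g := by
  obtain ⟨b, hb0, hb⟩ := IsLocalization.integerNormalization_spec (nonZeroDivisors ℤ) g
  refine ⟨b, IsLocalization.integerNormalization (nonZeroDivisors ℤ) g,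
    nonZeroDivisors.ne_zero hb0, ?_⟩
  have h1 : (Int.castRingHom ℚ) = algebraMap ℤ ℚ := rfl
  rw [h1, hb, ← smul_eq_C_mul, Int.cast_smul_eq_zsmul]

theorem map_inj : Function.Injective (Polynomial.map (Int.castRingHom ℚ)) :=
  map_injective _ (RingHom.injective_int _)

/-- the complex roots -/
def rts (P : ℤ[X]) : Set ℂ := {α | aeval α P = 0}

theorem rts_eq {P : ℤ[X]} (hP : P ≠ 0) : rts P = P.rootSet ℂ := by
  ext α
  rw [mem_rootSet]
  exact ⟨fun h => ⟨hP, h⟩, fun h => h.2⟩

theorem rts_finite {P : ℤ[X]} (hP : P ≠ 0) : (rts P).Finite := by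
  rw [rts_eq hP]
  exact rootSet_finite _ _

/-- A squarefree divisor with the same roots. -/
theorem exists_sqf (P : ℤ[X]) (hP : P ≠ 0) : ∃ (f g : ℤ[X]) (a : ℤ), a ≠ 0 ∧ C a * P = f * g ∧
    Squarefree (f.map (Int.castRingHom ℚ)) ∧ (rts P).ncard ≤ f.natDegree := by
  classical
  have hP' : P.map (Int.castRingHom ℚ) ≠ 0 := fun h => hP (map_inj (by rw [h, Polynomial.map_zero]))
  obtain ⟨s, hs⟩ := UniqueFactorizationMonoid.radical_dvd_self (a := P.map (Int.castRingHom ℚ))
  obtain ⟨n, hn⟩ := UniqueFactorizationMonoid.exists_dvd_radical_self_pow hP'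
  have hsq := UniqueFactorizationMonoid.squarefree_radical (a := P.map (Int.castRingHom ℚ))
  set r := UniqueFactorizationMonoid.radical (P.map (Int.castRingHom ℚ)) with hr
  obtain ⟨b₁, f, hb₁, hf⟩ := clear r
  obtain ⟨b₂, g, hb₂, hg⟩ := clear s
  have hb₁' : (b₁ : ℚ) ≠ 0 := by exact_mod_cast hb₁
  have hfa : Associated r (f.map (Int.castRingHom ℚ)) := by
    rw [hf]
    exact (associated_unit_mul_left r _ (isUnit_C.2 (isUnit_iff_ne_zero.2 hb₁'))).symm
  have hsqf : Squarefree (f.map (Int.castRingHom ℚ)) := hfa.squarefree_iff.1 hsq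
  refine ⟨f, g, b₁ * b₂, mul_ne_zero hb₁ hb₂, ?_, hsqf, ?_⟩
  · apply map_inj
    rw [Polynomial.map_mul, Polynomial.map_mul, hf, hg, hs, Polynomial.map_C]
    simp only [eq_intCast, Int.cast_mul, C_mul]
    ring
  · have hf0 : f ≠ 0 := by
      rintro rfl
      rw [Polynomial.map_zero] at hsqf
      exact not_squarefree_zero hsqf
    have hsub : rts P ⊆ rts f := by
      intro α hα
      have h1 : aeval α (P.map (Int.castRingHom ℚ)) = 0 := by
        have : (Int.castRingHom ℚ) = algebraMap ℤ ℚ := rfl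
        rw [this, aeval_map_algebraMap]
        exact hα
      obtain ⟨w, hw⟩ := hn
      have h2 : aeval α (r ^ n) = 0 := by
        rw [hw, map_mul, h1, zero_mul]
      rw [map_pow] at h2
      have h3 : aeval α r = 0 := by
        by_contra h4
        exact pow_ne_zero n h4 h2
      have h4 : aeval α (f.map (Int.castRingHom ℚ)) = 0 := by
        rw [hf, map_mul, h3, mul_zero]
      have : (Int.castRingHom ℚ) = algebraMap ℤ ℚ := rfl
      rw [this, aeval_map_algebraMap] at h4
      exact h4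
    refine (Set.ncard_le_ncard hsub (rts_finite hf0)).trans ?_
    rw [rts_eq hf0]
    exact ncard_rootSet_le f ℂ

/-- The Bezout identity for a squarefree polynomial and its derivative. -/
theorem bezout (h : ℤ[X]) (hsq : Squarefree (h.map (Int.castRingHom ℚ))) :
    ∃ (A B : ℤ[X]) (R : ℤ), R ≠ 0 ∧ A * h + B * derivative h = C R := by
  obtain ⟨u, v, huv⟩ := PerfectField.separable_iff_squarefree.2 hsq
  obtain ⟨b₁, U, hb₁, hU⟩ := clear u
  obtain ⟨b₂, V, hb₂, hV⟩ := clear v
  refine ⟨C b₂ * U, C b₁ * V, b₁ * b₂, mul_ne_zero hb₁ hb₂, ?_⟩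
  apply map_inj
  rw [Polynomial.map_add, Polynomial.map_mul, Polynomial.map_mul, Polynomial.map_mul,
    Polynomial.map_mul, hU, hV, Polynomial.map_C, Polynomial.map_C, Polynomial.map_C,
    ← derivative_map]
  simp only [eq_intCast, Int.cast_mul, C_mul]
  linear_combination (C (b₁ : ℚ) * C (b₂ : ℚ)) * huv

/-- The monic transform is squarefree. -/
theorem norm_sqf (f : ℤ[X]) (hd : 1 ≤ f.natDegree) (hsq : Squarefree (f.map (Int.castRingHom ℚ))) :
    Squarefree (f.integralNormalization.map (Int.castRingHom ℚ)) := by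
  have hf0 : f ≠ 0 := by
    rintro rfl
    simp at hd
  have hlc : (Int.castRingHom ℚ) f.leadingCoeff ≠ 0 := by
    rw [eq_intCast]
    exact_mod_cast leadingCoeff_ne_zero.2 hf0
  have hdeg : (f.map (Int.castRingHom ℚ)).natDegree = f.natDegree :=
    natDegree_map_eq_of_injective (RingHom.injective_int _) f
  rw [← integralNormalization_map _ _ hlc]
  set F := f.map (Int.castRingHom ℚ) with hF
  have hF0 : F ≠ 0 := fun h => hf0 (map_inj (by rw [← hF, h, Polynomial.map_zero]))
  have ha : F.leadingCoeff ≠ 0 := leadingCoeff_ne_zero.2 hF0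
  have hcomp : F.integralNormalization.comp (C F.leadingCoeff * X) =
      C F.leadingCoeff ^ (F.natDegree - 1) * F := by
    have h1 := integralNormalization_eval₂_leadingCoeff_mul (p := F) (by omega)
      (C : ℚ →+* ℚ[X]) X
    rw [eval₂_C_X] at h1
    exact h1
  intro x hx
  have h1 : x.comp (C F.leadingCoeff * X) * x.comp (C F.leadingCoeff * X) ∣ F := by
    obtain ⟨w, hw⟩ := hx
    have h2 : x.comp (C F.leadingCoeff * X) * x.comp (C F.leadingCoeff * X) ∣
        C F.leadingCoeff ^ (F.natDegree - 1) * F := by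
      rw [← hcomp, hw, mul_comp, mul_comp]
      exact Dvd.intro _ rfl
    exact ((isUnit_C.2 (isUnit_iff_ne_zero.2 ha)).pow _).dvd_mul_left.1 h2
  have h2 := hsq _ h1
  have h3 : x.natDegree = 0 := by
    have h4 := natDegree_eq_zero_of_isUnit h2
    rw [natDegree_comp, natDegree_C_mul_X _ ha, mul_one] at h4
    exact h4
  rw [natDegree_eq_zero] at h3
  obtain ⟨c, rfl⟩ := h3
  rw [C_comp] at h2
  exact h2

end Pool.Agent.D0H3.ZPM
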