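import Pool.Agent.D0H3.ZPM.Log
import Pool.Agent.D0H3.ZPM.Red
import Pool.Agent.D0H3.ZPM.Met

/-!
The exceptional sets of real numbers (helper file).
-/

set_option autoImplicit false

open Polynomial Set Filter

namespace Pool.Agent.D0H3.ZPM

open Pool.Agent.Y83.ZPI (SmoothZ smooth_count hom hom_eq hom_bound Bad bad_hom bad_count_nat)

theorem neg_inf {𝓐 : Set ℚ} {ξ C τ : ℝ}
    (h : {x : ℚ | x ∈ 𝓐 ∧ |ξ - x| ≤ C * (x.den : ℝ) ^ (-τ)}.Infinite) :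
    {x : ℚ | -x ∈ 𝓐 ∧ |-ξ - x| ≤ C * (x.den : ℝ) ^ (-τ)}.Infinite := by
  have h1 := h.image (f := fun x : ℚ => -x) (fun x _ y _ hxy => neg_injective hxy)
  refine h1.mono ?_
  rintro _ ⟨x, ⟨h2, h3⟩, rfl⟩
  refine ⟨by simpa using h2, ?_⟩
  simp only [Rat.neg_den]
  push_cast
  have h4 : -ξ - -(x : ℝ) = -(ξ - x) := by ring
  rw [h4, abs_neg]
  exact h3

/-- Both signs. -/
theorem metric_sym (𝓑 : Set ℚ) {s τ : ℝ} (hs : 0 ≤ s) (hτ : 0 < τ)
    (h : ∀ δ : ℝ, 0 < δ → ∀ κ : ℕ, 1 ≤ κ → ∃ (C : ℝ) (N₀ : ℕ), ∀ N : ℕ, N₀ ≤ N →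
      ∀ S : Finset ℚ, (∀ x ∈ S, x ∈ 𝓑 ∧ x ≠ 0 ∧ N ≤ κ * x.den ∧ x.den ≤ κ * N ∧
        N ≤ κ * x.num.natAbs ∧ x.num.natAbs ≤ κ * N) → (S.card : ℝ) ≤ C * (N : ℝ) ^ (s + δ)) :
    dimH {ξ : ℝ | ξ ≠ 0 ∧ ∃ C : ℝ, {x : ℚ | x ∈ 𝓑 ∧ |ξ - x| ≤ C * (x.den : ℝ) ^ (-τ)}.Infinite} ≤
      ENNReal.ofReal (s / τ) := by
  classical
  have h1 := metric 𝓑 hs hτ (fun δ hδ _ κ hκ => by
    obtain ⟨C, N₀, hC⟩ := h δ hδ κ hκ
    refine ⟨C, N₀, fun N hN S hS => hC N hN S fun x hx => ?_⟩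
    obtain ⟨g1, g2, g3⟩ := hS x hx
    exact ⟨g1, g2.ne', g3⟩)
  have h2 := metric {x | -x ∈ 𝓑} hs hτ (fun δ hδ _ κ hκ => by
    obtain ⟨C, N₀, hC⟩ := h δ hδ κ hκ
    refine ⟨C, N₀, fun N hN S hS => ?_⟩
    have h3 := hC N hN (S.image fun x => -x) (fun y hy => by
      obtain ⟨x, hx, rfl⟩ := Finset.mem_image.1 hy
      obtain ⟨g1, g2, g3⟩ := hS x hx
      refine ⟨g1, neg_ne_zero.2 g2.ne', ?_⟩
      rw [Rat.neg_den, Rat.neg_num, Int.natAbs_neg]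
      exact g3)
    rwa [Finset.card_image_of_injective _ neg_injective] at h3)
  have hiso : Isometry (fun x : ℝ => -x) := (IsometryEquiv.neg ℝ).isometry
  rw [← hiso.dimH_image] at h2
  refine (dimH_mono ?_).trans ((dimH_union _ _).le.trans (max_le h1 h2))
  rintro ξ ⟨h3, C, h4⟩
  rcases lt_or_gt_of_ne h3 with h5 | h5
  · refine Or.inr ⟨-ξ, ⟨neg_pos.2 h5, C, neg_inf h4⟩, neg_neg ξ⟩
  · exact Or.inl ⟨h5, C, h4⟩

/-- One polynomial. -/
theorem dim_one (D : ℕ) (P : ℤ[X]) (hP : 0 < P.natDegree) {τ : ℝ} (hτ : 0 < τ) :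
    dimH {ξ : ℝ | ξ ≠ 0 ∧ ∃ C : ℝ, {x : ℚ | Bad D P x ∧
      |ξ - x| ≤ C * (x.den : ℝ) ^ (-τ)}.Infinite} ≤ ENNReal.ofReal (1 / τ) :=
  metric_sym {x | Bad D P x} zero_le_one hτ fun _ hδ κ hκ => count_one D P hP hδ κ hκ

/-- A monic squarefree polynomial of degree at least two. -/
theorem dim_two_monic {f A B : ℤ[X]} {R : ℤ} (hf : f.Monic) (hd : 2 ≤ f.natDegree)
    (hR : A * f + B * derivative f = C R) (hR0 : R ≠ 0) (D : ℕ) {τ : ℝ} (hτ : 0 < τ) :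
    dimH {ξ : ℝ | ξ ≠ 0 ∧ aeval ξ f ≠ 0 ∧ ∃ C : ℝ, {x : ℚ | (hom f x.num x.den ≠ 0 ∧
      SmoothZ D (hom f x.num x.den)) ∧ |ξ - x| ≤ C * (x.den : ℝ) ^ (-τ)}.Infinite} ≤ 0 := by
  classical
  have h1 : ∀ j : ℕ, dimH {ξ : ℝ | ξ ≠ 0 ∧ ∃ C : ℝ, {x : ℚ | (hom f x.num x.den ≠ 0 ∧
      SmoothZ D (hom f x.num x.den) ∧ 1 / ((j : ℝ) + 1) ≤ |aeval (x : ℝ) f|) ∧
      |ξ - x| ≤ C * (x.den : ℝ) ^ (-τ)}.Infinite} ≤ 0 := by
    intro j
    have h2 := metric_sym {x : ℚ | hom f x.num x.den ≠ 0 ∧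
      SmoothZ D (hom f x.num x.den) ∧ 1 / ((j : ℝ) + 1) ≤ |aeval (x : ℝ) f|} le_rfl hτ
      (fun δ hδ κ hκ => count_two hf hd hR hR0 D (η := 1 / ((j : ℝ) + 1)) (by positivity) hδ κ hκ)
    rw [zero_div, ENNReal.ofReal_zero] at h2
    exact h2
  refine (dimH_mono (t := ⋃ j : ℕ, {ξ : ℝ | ξ ≠ 0 ∧ ∃ C : ℝ, {x : ℚ | (hom f x.num x.den ≠ 0 ∧
      SmoothZ D (hom f x.num x.den) ∧ 1 / ((j : ℝ) + 1) ≤ |aeval (x : ℝ) f|) ∧
      |ξ - x| ≤ C * (x.den : ℝ) ^ (-τ)}.Infinite}) ?_).trans ?_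
  · rintro ξ ⟨h2, h3, C, h4⟩
    rw [Set.mem_iUnion]
    have h5 : 0 < |aeval ξ f| := abs_pos.2 h3
    obtain ⟨j, hj⟩ := exists_nat_one_div_lt h5
    refine ⟨j, h2, C, ?_⟩
    have hcont : Continuous fun y : ℝ => |aeval y f| := by
      have h6 : (fun y : ℝ => |aeval y f|) = fun y : ℝ => |(f.map (algebraMap ℤ ℝ)).eval y| := by
        funext y
        rw [aeval_def, eval_map]
      rw [h6]
      exact (Polynomial.continuous _).abs
    have hopen : ∀ᶠ y in nhds ξ, 1 / ((j : ℝ) + 1) < |aeval y f| :=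
      hcont.continuousAt.eventually (lt_mem_nhds hj)
    obtain ⟨r, hr, hr'⟩ := Metric.eventually_nhds_iff.1 hopen
    obtain ⟨q₀, hq₀⟩ := eventually_atTop.1 ((tendsto_small C τ hτ).eventually (gt_mem_nhds hr))
    have h6 := h4.sdiff (finite_den ξ C τ hτ.le q₀)
    refine h6.mono ?_
    rintro x ⟨⟨h7, h8⟩, h9⟩
    refine ⟨⟨h7.1, h7.2, ?_⟩, h8⟩
    have h10 : q₀ ≤ x.den := by
      by_contra hcon
      exact h9 ⟨h8, (not_le.1 hcon).le⟩
    refine (hr' ?_).le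
    rw [Real.dist_eq, abs_sub_comm]
    exact h8.trans_lt (hq₀ _ h10)
  · rw [dimH_iUnion]
    exact iSup_le h1

/-- A monic transform of a squarefree divisor: bad numbers are transformed into numbers at which the
values have no large prime factors. -/
theorem exists_monic (D : ℕ) (P : ℤ[X]) (hP : 0 < P.natDegree) : ∃ (h : ℤ[X]) (a : ℤ) (D' : ℕ),
    h.Monic ∧ (rts P).ncard ≤ h.natDegree ∧ Squarefree (h.map (Int.castRingHom ℚ)) ∧ a ≠ 0 ∧
    (∀ ξ : ℝ, aeval ξ P ≠ 0 → aeval ((a : ℝ) * ξ) h ≠ 0) ∧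
    ∀ x : ℚ, Bad D P x → hom h ((a : ℚ) * x).num ((a : ℚ) * x).den ≠ 0 ∧
      SmoothZ D' (hom h ((a : ℚ) * x).num ((a : ℚ) * x).den) := by
  have hP0 : P ≠ 0 := by
    rintro rfl
    simp at hP
  obtain ⟨f, g, a', ha', hfg, hsq, hdeg⟩ := exists_sqf P hP0
  have hf0 : f ≠ 0 := by
    rintro rfl
    rw [Polynomial.map_zero] at hsq
    exact not_squarefree_zero hsq
  have hrts : 1 ≤ (rts P).ncard := by
    rw [Nat.one_le_iff_ne_zero, Ne, Set.ncard_eq_zero (rts_finite hP0), ← Ne,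
      ← Set.nonempty_iff_ne_empty]
    have h1 : 0 < (P.map (algebraMap ℤ ℂ)).degree := by
      rw [Polynomial.degree_map_eq_of_injective (RingHom.injective_int _)]
      exact Polynomial.natDegree_pos_iff_degree_pos.1 hP
    obtain ⟨z, hz⟩ := IsAlgClosed.exists_root _ h1.ne'
    refine ⟨z, ?_⟩
    rw [rts, Set.mem_ofPred_eq, Polynomial.aeval_def, ← Polynomial.eval_map]
    exact hz
  have hd : 1 ≤ f.natDegree := hrts.trans hdeg
  have ha : f.leadingCoeff ≠ 0 := leadingCoeff_ne_zero.2 hf0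
  have hfg' : ∀ (S : Type) [CommRing S] (x : S), (a' : S) * aeval x P = aeval x f * aeval x g := by
    intro S _ x
    have h1 := congrArg (aeval x) hfg
    rw [map_mul, map_mul, aeval_C] at h1
    simpa using h1
  have hh : ∀ (S : Type) [CommRing S] (x : S), aeval ((f.leadingCoeff : S) * x) f.integralNormalization =
      (f.leadingCoeff : S) ^ (f.natDegree - 1) * aeval x f := by
    intro S _ x
    have h1 := integralNormalization_eval₂_leadingCoeff_mul hd (algebraMap ℤ S) x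
    rw [aeval_def, aeval_def]
    simpa using h1
  have hnd : f.integralNormalization.natDegree = f.natDegree := natDegree_integralNormalization
  refine ⟨f.integralNormalization, f.leadingCoeff, D + P.leadingCoeff.natAbs + a'.natAbs +
    f.leadingCoeff.natAbs, monic_integralNormalization hf0, ?_, norm_sqf f hd hsq, ha, ?_, ?_⟩
  · rw [hnd]
    exact hdeg
  · intro ξ hξ
    rw [hh]
    refine mul_ne_zero (pow_ne_zero _ (by exact_mod_cast ha)) fun h0 => hξ ?_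
    have h1 := hfg' ℝ ξ
    rw [h0, zero_mul] at h1
    exact (mul_eq_zero.1 h1).resolve_left (by exact_mod_cast ha')
  · intro x hx
    obtain ⟨h1, h2⟩ := bad_hom hP hx
    set y : ℚ := (f.leadingCoeff : ℚ) * x with hy
    have hxd : (x.den : ℚ) ≠ 0 := by exact_mod_cast x.den_ne_zero
    have hyd : (y.den : ℚ) ≠ 0 := by exact_mod_cast y.den_ne_zero
    obtain ⟨k, hk⟩ : y.den ∣ x.den := by
      have h3 := Rat.mul_den_dvd (f.leadingCoeff : ℚ) x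
      rw [Rat.den_intCast, one_mul] at h3
      exact h3
    have hk' : (x.den : ℚ) = y.den * k := by exact_mod_cast hk
    have e1 : (hom f.integralNormalization y.num y.den : ℚ) * (k : ℚ) ^ f.natDegree =
        (f.leadingCoeff : ℚ) ^ (f.natDegree - 1) * (hom f x.num x.den : ℚ) := by
      rw [hom_eq, hom_eq, hnd, hy, hh, ← hy, hk', mul_pow]
      ring
    have e1' : hom f.integralNormalization y.num y.den * (k : ℤ) ^ f.natDegree =
        f.leadingCoeff ^ (f.natDegree - 1) * hom f x.num x.den := by exact_mod_cast e1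
    have hdegs : f.natDegree + g.natDegree = P.natDegree := by
      have hg0 : g ≠ 0 := by
        rintro rfl
        rw [mul_zero] at hfg
        exact mul_ne_zero (C_ne_zero.2 ha') hP0 hfg
      have h3 := congrArg natDegree hfg
      rw [natDegree_mul hf0 hg0, natDegree_C_mul ha'] at h3
      exact h3.symm
    have e2 : (a' : ℚ) * (hom P x.num x.den : ℚ) = hom f x.num x.den * hom g x.num x.den := by
      rw [hom_eq, hom_eq, hom_eq, ← hdegs, pow_add, ← mul_assoc, hfg']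
      ring
    have e2' : a' * hom P x.num x.den = hom f x.num x.den * hom g x.num x.den := by
      exact_mod_cast e2
    have hf1 : hom f x.num x.den ≠ 0 := by
      intro h0
      rw [h0, zero_mul] at e2'
      exact mul_ne_zero ha' h1 e2'
    refine ⟨?_, ?_⟩
    · intro h0
      rw [h0, zero_mul] at e1'
      exact mul_ne_zero (pow_ne_zero _ ha) hf1 e1'.symm
    · intro p hp hpD hdvd
      have hpZ : Prime (p : ℤ) := Nat.prime_iff_prime_int.1 hp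
      have hsmall : ∀ z : ℤ, z ≠ 0 → z.natAbs < p → ¬ (p : ℤ) ∣ z := by
        intro z hz hzp h3
        have h4 := Nat.le_of_dvd (Nat.pos_of_ne_zero (Int.natAbs_ne_zero.2 hz)) (Int.natCast_dvd.1 h3)
        omega
      have h3 : (p : ℤ) ∣ f.leadingCoeff ^ (f.natDegree - 1) * hom f x.num x.den := by
        rw [← e1']
        exact Dvd.dvd.mul_right hdvd _
      rcases hpZ.dvd_or_dvd h3 with h4 | h4
      · exact hsmall _ ha (by omega) (hpZ.dvd_of_dvd_pow h4)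
      · have h5 : (p : ℤ) ∣ a' * hom P x.num x.den := by
          rw [e2']
          exact Dvd.dvd.mul_right h4 _
        rcases hpZ.dvd_or_dvd h5 with h6 | h6
        · exact hsmall _ ha' (by omega) h6
        · exact h2 p hp (by omega) h6

/-- The real numbers with infinitely many approximations at which some polynomial, with at least `ω`
different complex roots, has no large prime factors. -/
def Exc (ω : ℕ) (τ : ℝ) : Set ℝ :=
  {ξ | Transcendental ℚ ξ ∧ ∃ (D : ℕ) (P : ℤ[X]), 0 < P.natDegree ∧ ω ≤ (rts P).ncard ∧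
    ∃ C : ℝ, {x : ℚ | Bad D P x ∧ |ξ - x| ≤ C * (x.den : ℝ) ^ (-τ)}.Infinite}

theorem trans_ne {ξ : ℝ} (hξ : Transcendental ℚ ξ) {f : ℤ[X]} (hf : f ≠ 0) : aeval ξ f ≠ 0 := by
  intro h0
  exact hξ ((IsFractionRing.isAlgebraic_iff ℤ ℚ ℝ).1 ⟨f, hf, h0⟩)

theorem dim_two (D : ℕ) (P : ℤ[X]) (hP : 0 < P.natDegree) (h2 : 2 ≤ (rts P).ncard) {τ : ℝ}
    (hτ : 0 < τ) :
    dimH {ξ : ℝ | Transcendental ℚ ξ ∧ ∃ C : ℝ, {x : ℚ | Bad D P x ∧
      |ξ - x| ≤ C * (x.den : ℝ) ^ (-τ)}.Infinite} ≤ 0 := by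
  obtain ⟨h, a, D', hmon, hdeg, hsq, ha, hval, hbad⟩ := exists_monic D P hP
  obtain ⟨A, B, R, hR0, hR⟩ := bezout h hsq
  have h3 := dim_two_monic hmon (h2.trans hdeg) hR hR0 D' hτ
  have har : (a : ℝ) ≠ 0 := by exact_mod_cast ha
  have hlip : LipschitzWith (Real.nnabs (a : ℝ)⁻¹) (fun z : ℝ => (a : ℝ)⁻¹ * z) := by
    refine LipschitzWith.of_dist_le_mul fun x y => ?_
    rw [Real.dist_eq, Real.dist_eq, ← mul_sub, abs_mul, Real.coe_nnabs]
  refine (dimH_mono ?_).trans ((hlip.dimH_image_le _).trans h3)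
  rintro ξ ⟨hξ, C, hinf⟩
  have hP0 : P ≠ 0 := by
    rintro rfl
    simp at hP
  refine ⟨a * ξ, ⟨?_, hval ξ (trans_ne hξ hP0), |(a : ℝ)| * |C|, ?_⟩, by
    simp only
    rw [inv_mul_cancel_left₀ har]⟩
  · refine mul_ne_zero har fun h0 => hξ ?_
    rw [h0]
    exact isAlgebraic_zero
  · have haq : (a : ℚ) ≠ 0 := by exact_mod_cast ha
    have h4 := hinf.image (f := fun x : ℚ => (a : ℚ) * x)
      (fun x _ y _ hxy => mul_left_cancel₀ haq hxy)
    refine h4.mono ?_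
    rintro _ ⟨x, ⟨h5, h6⟩, rfl⟩
    refine ⟨hbad x h5, ?_⟩
    simp only
    have h7 : ((a : ℚ) * x).den ≤ x.den := by
      have h8 := Rat.mul_den_dvd (a : ℚ) x
      rw [Rat.den_intCast, one_mul] at h8
      exact Nat.le_of_dvd x.pos h8
    have h7' : (((a : ℚ) * x).den : ℝ) ≤ x.den := by exact_mod_cast h7
    have h9 : (0 : ℝ) < (((a : ℚ) * x).den : ℝ) := by exact_mod_cast ((a : ℚ) * x).pos
    have h8 : (x.den : ℝ) ^ (-τ) ≤ (((a : ℚ) * x).den : ℝ) ^ (-τ) :=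
      Real.rpow_le_rpow_of_nonpos h9 h7' (by linarith)
    push_cast
    rw [← mul_sub, abs_mul, mul_assoc]
    refine mul_le_mul_of_nonneg_left (h6.trans ?_) (abs_nonneg _)
    calc C * (x.den : ℝ) ^ (-τ) ≤ |C| * (x.den : ℝ) ^ (-τ) :=
          mul_le_mul_of_nonneg_right (le_abs_self C) (by positivity)
      _ ≤ |C| * (((a : ℚ) * x).den : ℝ) ^ (-τ) := mul_le_mul_of_nonneg_left h8 (abs_nonneg C)

theorem exc_union {ω : ℕ} {τ : ℝ} {s : ENNReal} (h : ∀ (D : ℕ) (P : ℤ[X]), 0 < P.natDegree →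
    ω ≤ (rts P).ncard → dimH {ξ : ℝ | Transcendental ℚ ξ ∧ ∃ C : ℝ, {x : ℚ | Bad D P x ∧
      |ξ - x| ≤ C * (x.den : ℝ) ^ (-τ)}.Infinite} ≤ s) : dimH (Exc ω τ) ≤ s := by
  have hsub : Exc ω τ ⊆ ⋃ i : {i : ℕ × ℤ[X] // 0 < i.2.natDegree ∧ ω ≤ (rts i.2).ncard},
      {ξ : ℝ | Transcendental ℚ ξ ∧ ∃ C : ℝ, {x : ℚ | Bad i.1.1 i.1.2 x ∧
        |ξ - x| ≤ C * (x.den : ℝ) ^ (-τ)}.Infinite} := by
    rintro ξ ⟨h1, D, P, h2, h3, h4⟩
    rw [Set.mem_iUnion]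
    exact ⟨⟨(D, P), h2, h3⟩, h1, h4⟩
  have hc : Countable ℤ[X] := Cardinal.mk_le_aleph0_iff.1
    (Polynomial.cardinalMk_le_max.trans (max_le (Cardinal.mk_le_aleph0_iff.2 inferInstance) le_rfl))
  refine (dimH_mono hsub).trans ?_
  rw [dimH_iUnion]
  exact iSup_le fun i => h i.1.1 i.1.2 i.2.1 i.2.2

theorem dim_exc_one {τ : ℝ} (hτ : 0 < τ) : dimH (Exc 1 τ) ≤ ENNReal.ofReal (1 / τ) := by
  refine exc_union fun D P hP _ => (dimH_mono ?_).trans (dim_one D P hP hτ)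
  rintro ξ ⟨h1, h2⟩
  refine ⟨fun h0 => h1 ?_, h2⟩
  rw [h0]
  exact isAlgebraic_zero

theorem dim_exc_two {τ : ℝ} (hτ : 0 < τ) : dimH (Exc 2 τ) ≤ 0 :=
  exc_union fun D P hP h2 => dim_two D P hP h2 hτ

end Pool.Agent.D0H3.ZPM
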