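import Pool.Agent.D0H3.ZPM.Cnt

/-!
Counts of rational numbers with numerators without large prime factors (helper file).
-/

set_option autoImplicit false

open Polynomial Finset

namespace Pool.Agent.D0H3.ZPM

open Pool.Agent.Y83.ZPI (SmoothZ smooth_count hom hom_eq hom_bound Bad bad_hom bad_count_nat)

theorem log_pow (c₀ d κ E : ℕ) {δ : ℝ} (hδ : 0 < δ) : ∃ C : ℝ, 0 ≤ C ∧ ∀ N : ℕ, 1 ≤ N →
    (((Nat.log 2 (c₀ * (κ * N) ^ d) + 1) ^ E : ℕ) : ℝ) ≤ C * (N : ℝ) ^ δ := by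
  obtain ⟨ε, hε⟩ : ∃ ε : ℝ, ε = δ / (((d : ℝ) + 1) * (E + 1)) := ⟨_, rfl⟩
  have hε0 : 0 < ε := by rw [hε]; positivity
  obtain ⟨M, hM⟩ : ∃ M : ℝ, M = ((c₀ : ℝ) + 1) * ((κ : ℝ) + 1) ^ d := ⟨_, rfl⟩
  have hM0 : 0 < M := by rw [hM]; positivity
  have hl2 : 0 < Real.log 2 := Real.log_pos (by norm_num)
  obtain ⟨Q, hQ⟩ : ∃ Q : ℝ, Q = M ^ ε / ε / Real.log 2 + 1 := ⟨_, rfl⟩
  have hQ0 : 0 ≤ Q := by rw [hQ]; positivity
  refine ⟨Q ^ E, pow_nonneg hQ0 _, fun N hN => ?_⟩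
  have hNr : (1 : ℝ) ≤ N := by exact_mod_cast hN
  have hN0 : (0 : ℝ) < N := by linarith
  have h1 : ((Nat.log 2 (c₀ * (κ * N) ^ d) : ℕ) : ℝ) ≤ Real.log (M * (N : ℝ) ^ d) / Real.log 2 := by
    refine (Real.natLog_le_logb _ _).trans ?_
    rw [Real.logb, Nat.cast_ofNat]
    refine div_le_div_of_nonneg_right ?_ hl2.le
    rcases Nat.eq_zero_or_pos (c₀ * (κ * N) ^ d) with h0 | h0
    · rw [h0, Nat.cast_zero, Real.log_zero]
      apply Real.log_nonneg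
      have g1 : (1 : ℝ) ≤ (N : ℝ) ^ d := one_le_pow₀ hNr
      have g2 : (1 : ℝ) ≤ M := by
        rw [hM]
        have g3 : (1 : ℝ) ≤ (c₀ : ℝ) + 1 := by
          have := Nat.cast_nonneg (α := ℝ) c₀
          linarith
        have g4 : (1 : ℝ) ≤ ((κ : ℝ) + 1) ^ d := one_le_pow₀ (by
          have := Nat.cast_nonneg (α := ℝ) κ
          linarith)
        nlinarith
      nlinarith
    · refine Real.log_le_log (by exact_mod_cast h0) ?_
      push_cast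
      rw [hM, mul_pow, mul_assoc]
      gcongr
      · linarith
      · linarith
  have h2 : Real.log (M * (N : ℝ) ^ d) ≤ M ^ ε * (N : ℝ) ^ (d * ε) / ε := by
    refine (Real.log_le_rpow_div (by positivity) hε0).trans (le_of_eq ?_)
    rw [Real.mul_rpow hM0.le (by positivity), ← Real.rpow_natCast (N : ℝ) d,
      ← Real.rpow_mul hN0.le]
  have h3 : (1 : ℝ) ≤ (N : ℝ) ^ (d * ε) := Real.one_le_rpow hNr (by positivity)
  have h4 : ((Nat.log 2 (c₀ * (κ * N) ^ d) : ℕ) : ℝ) + 1 ≤ Q * (N : ℝ) ^ (d * ε) := by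
    calc ((Nat.log 2 (c₀ * (κ * N) ^ d) : ℕ) : ℝ) + 1
        ≤ M ^ ε * (N : ℝ) ^ (d * ε) / ε / Real.log 2 + 1 := by
          have := div_le_div_of_nonneg_right h2 hl2.le
          linarith
      _ ≤ M ^ ε * (N : ℝ) ^ (d * ε) / ε / Real.log 2 + (N : ℝ) ^ (d * ε) := by linarith
      _ = Q * (N : ℝ) ^ (d * ε) := by rw [hQ]; ring
  push_cast
  calc (((Nat.log 2 (c₀ * (κ * N) ^ d) : ℕ) : ℝ) + 1) ^ E ≤ (Q * (N : ℝ) ^ (d * ε)) ^ E := by gcongr
    _ = Q ^ E * (N : ℝ) ^ (d * ε * E) := by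
        rw [mul_pow, ← Real.rpow_natCast ((N : ℝ) ^ (d * ε)) E, ← Real.rpow_mul hN0.le]
    _ ≤ Q ^ E * (N : ℝ) ^ δ := by
        refine mul_le_mul_of_nonneg_left (Real.rpow_le_rpow_of_exponent_le hNr ?_)
          (pow_nonneg hQ0 _)
        rw [hε]
        have h5 : (d : ℝ) * (δ / (((d : ℝ) + 1) * (E + 1))) * E =
            δ * ((d / (d + 1)) * (E / (E + 1))) := by
          field_simp
        rw [h5]
        have h6 : (d : ℝ) / (d + 1) ≤ 1 := by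
          rw [div_le_one (by positivity)]
          linarith
        have h7 : (E : ℝ) / (E + 1) ≤ 1 := by
          rw [div_le_one (by positivity)]
          linarith
        have h8 : ((d : ℝ) / (d + 1)) * (E / (E + 1)) ≤ 1 :=
          mul_le_one₀ h6 (by positivity) h7
        nlinarith

/-- one polynomial -/
theorem count_one (D : ℕ) (P : ℤ[X]) (hP : 0 < P.natDegree) {δ : ℝ} (hδ : 0 < δ) (κ : ℕ)
    (hκ : 1 ≤ κ) : ∃ (C : ℝ) (N₀ : ℕ), ∀ N : ℕ, N₀ ≤ N → ∀ S : Finset ℚ,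
      (∀ x ∈ S, Bad D P x ∧ x ≠ 0 ∧ N ≤ κ * x.den ∧ x.den ≤ κ * N ∧
        N ≤ κ * x.num.natAbs ∧ x.num.natAbs ≤ κ * N) → (S.card : ℝ) ≤ C * (N : ℝ) ^ (1 + δ) := by
  classical
  obtain ⟨C, hC0, hC⟩ := log_pow (∑ i ∈ range (P.natDegree + 1), (P.coeff i).natAbs) P.natDegree κ
    (D + P.leadingCoeff.natAbs + 1) hδ
  refine ⟨P.natDegree * (2 * C) * (κ + 1), 1, fun N hN S hS => ?_⟩
  have hNr : (1 : ℝ) ≤ N := by exact_mod_cast hN
  have hN0 : (0 : ℝ) < N := by linarith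
  set L := (Nat.log 2 ((∑ i ∈ range (P.natDegree + 1), (P.coeff i).natAbs) *
    (κ * N) ^ P.natDegree) + 1) ^ (D + P.leadingCoeff.natAbs + 1) with hL
  have h1 : S.card ≤ P.natDegree * (2 * L) * (S.image Rat.den).card := by
    refine Finset.card_le_mul_card_image S _ fun v hv => ?_
    obtain ⟨y, hy, rfl⟩ := Finset.mem_image.1 hv
    refine bad_count_nat D P hP (κ * N) y.den (hS y hy).2.2.2.1 _ fun t ht => ?_
    rw [Finset.mem_filter] at ht
    refine ⟨ht.2, ?_, (hS t ht.1).1⟩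
    rw [Int.abs_eq_natAbs]
    exact_mod_cast (hS t ht.1).2.2.2.2.2
  have h2 : (S.image Rat.den).card ≤ κ * N + 1 := by
    have h3 : S.image Rat.den ⊆ Finset.range (κ * N + 1) := by
      intro v hv
      obtain ⟨y, hy, rfl⟩ := Finset.mem_image.1 hv
      rw [Finset.mem_range]
      have := (hS y hy).2.2.2.1
      omega
    refine (Finset.card_le_card h3).trans (le_of_eq (Finset.card_range _))
  have h3 : (S.card : ℝ) ≤ P.natDegree * (2 * (L : ℝ)) * (κ * N + 1) := by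
    have := h1.trans (Nat.mul_le_mul_left _ h2)
    exact_mod_cast this
  have h4 : (L : ℝ) ≤ C * (N : ℝ) ^ δ := hC N hN
  have h5 : (κ : ℝ) * N + 1 ≤ (κ + 1) * N := by
    have := Nat.cast_nonneg (α := ℝ) κ
    nlinarith
  have h6 : (N : ℝ) ^ (1 + δ) = N * (N : ℝ) ^ δ := by
    rw [Real.rpow_add hN0, Real.rpow_one]
  rw [h6]
  calc (S.card : ℝ) ≤ P.natDegree * (2 * (L : ℝ)) * (κ * N + 1) := h3
    _ ≤ P.natDegree * (2 * (C * (N : ℝ) ^ δ)) * ((κ + 1) * N) := by gcongr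
    _ = _ := by ring

/-- A monic squarefree polynomial of degree at least two. -/
theorem count_two {f A B : ℤ[X]} {R : ℤ} (hf : f.Monic) (hd : 2 ≤ f.natDegree)
    (hR : A * f + B * derivative f = C R) (hR0 : R ≠ 0) (D : ℕ) {η : ℝ} (hη : 0 < η)
    {δ : ℝ} (hδ : 0 < δ) (κ : ℕ)
    (hκ : 1 ≤ κ) : ∃ (C : ℝ) (N₀ : ℕ), ∀ N : ℕ, N₀ ≤ N → ∀ S : Finset ℚ,
      (∀ x ∈ S, (hom f x.num x.den ≠ 0 ∧ SmoothZ D (hom f x.num x.den) ∧
        η ≤ |aeval (x : ℝ) f|) ∧ x ≠ 0 ∧ N ≤ κ * x.den ∧ x.den ≤ κ * N ∧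
        N ≤ κ * x.num.natAbs ∧ x.num.natAbs ≤ κ * N) → (S.card : ℝ) ≤ C * (N : ℝ) ^ (0 + δ) := by
  classical
  have hκr : (1 : ℝ) ≤ κ := by exact_mod_cast hκ
  obtain ⟨K, hK⟩ := two_count hf hR hR0 D (ρ := η / (κ : ℝ) ^ 4) (T := (κ : ℝ) ^ 2)
    (by positivity)
  obtain ⟨C, hC0, hC⟩ := log_pow (∑ i ∈ range (f.natDegree + 1), (f.coeff i).natAbs) f.natDegree κ
    (D + 1) hδ
  refine ⟨K * C, κ, fun N hN S hS => ?_⟩
  have hN1 : 1 ≤ N := hκ.trans hN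
  have hNr : (1 : ℝ) ≤ N := by exact_mod_cast hN1
  have hN0 : (0 : ℝ) < N := by linarith
  have hNκ : (κ : ℝ) ≤ N := by exact_mod_cast hN
  have h1 := hK (κ * N) (Nat.mul_pos hκ hN1) S (fun x hx => by
    obtain ⟨⟨g1, g2, g3⟩, g4, g5, g6, g7, g8⟩ := hS x hx
    have hd0 : (0 : ℝ) < x.den := by exact_mod_cast x.pos
    have g5' : (N : ℝ) ≤ κ * x.den := by exact_mod_cast g5
    have g8' : (x.num.natAbs : ℝ) ≤ κ * N := by exact_mod_cast g8
    refine ⟨g1, g2, ?_, g6, g8, ?_⟩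
    · have e1 : |(x : ℝ)| = (x.num.natAbs : ℝ) / x.den := by
        have e2 : (x : ℝ) = x.num / x.den := by exact_mod_cast (Rat.num_div_den x).symm
        rw [e2, abs_div, abs_of_pos hd0]
        congr 1
        rw [Nat.cast_natAbs, Int.cast_abs]
      rw [e1, div_le_iff₀ hd0]
      calc (x.num.natAbs : ℝ) ≤ κ * N := g8'
        _ ≤ κ * (κ * x.den) := by gcongr
        _ = κ ^ 2 * x.den := by ring
    · have e1 : (hom f x.num x.den : ℝ) = aeval (x : ℝ) f * (x.den : ℝ) ^ f.natDegree := by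
        have e2 := hom_eq f x
        have e3 : ((aeval x f : ℚ) : ℝ) = aeval (x : ℝ) f := by
          have := aeval_algebraMap_apply ℝ x f
          simpa using this.symm
        have e4 := congrArg (fun z : ℚ => (z : ℝ)) e2
        push_cast at e4
        rw [e4, e3]
      rw [e1, abs_mul, abs_of_pos (pow_pos hd0 _)]
      have e5 : (N : ℝ) / κ ≤ x.den := by
        rw [div_le_iff₀ (by linarith), mul_comm]
        exact g5'
      have e6 : 1 ≤ (N : ℝ) / κ := by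
        rw [le_div_iff₀ (by linarith), one_mul]
        exact hNκ
      have e7 : ((N : ℝ) / κ) ^ 2 ≤ (x.den : ℝ) ^ f.natDegree :=
        calc ((N : ℝ) / κ) ^ 2 ≤ ((N : ℝ) / κ) ^ f.natDegree := pow_le_pow_right₀ e6 hd
          _ ≤ (x.den : ℝ) ^ f.natDegree := pow_le_pow_left₀ (by positivity) e5 _
      calc η / (κ : ℝ) ^ 4 * (((κ * N : ℕ)) : ℝ) ^ 2 = η * ((N : ℝ) / κ) ^ 2 := by
            push_cast
            field_simp
        _ ≤ |aeval (x : ℝ) f| * (x.den : ℝ) ^ f.natDegree := by gcongr)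
  have h2 : (S.card : ℝ) ≤ K * (((Nat.log 2 ((∑ i ∈ range (f.natDegree + 1), (f.coeff i).natAbs) *
      (κ * N) ^ f.natDegree) + 1) ^ (D + 1) : ℕ) : ℝ) := by exact_mod_cast h1
  rw [zero_add]
  calc (S.card : ℝ) ≤ _ := h2
    _ ≤ K * (C * (N : ℝ) ^ δ) := by
        have := hC N hN1
        gcongr
    _ = _ := by ring

end Pool.Agent.D0H3.ZPM
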