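import Pool.Agent.D0H3.ZPM.Sep
import Pool.Agent.D0H3.ZPM.Exc

/-!
The number of the bad rational numbers of bounded height (helper file).
-/

set_option autoImplicit false

open Polynomial Finset

namespace Pool.Agent.D0H3.ZPM

open Pool.Agent.Y83.ZPI (SmoothZ smooth_count hom hom_eq hom_bound Bad bad_hom)

theorem log_lin (c₀ d κ : ℕ) : ∃ C : ℝ, 0 ≤ C ∧ ∀ X : ℕ, 2 ≤ X →
    ((Nat.log 2 (c₀ * (κ * X) ^ d) + 1 : ℕ) : ℝ) ≤ C * Real.log X := by
  have hl2 : 0 < Real.log 2 := Real.log_pos (by norm_num)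
  obtain ⟨M, hM⟩ : ∃ M : ℝ, M = ((c₀ : ℝ) + 1) * ((κ : ℝ) + 1) ^ d := ⟨_, rfl⟩
  have hM1 : 1 ≤ M := by
    rw [hM]
    have g3 : (1 : ℝ) ≤ (c₀ : ℝ) + 1 := by
      have := Nat.cast_nonneg (α := ℝ) c₀
      linarith
    have g4 : (1 : ℝ) ≤ ((κ : ℝ) + 1) ^ d := one_le_pow₀ (by
      have := Nat.cast_nonneg (α := ℝ) κ
      linarith)
    nlinarith
  have hlM : 0 ≤ Real.log M := Real.log_nonneg hM1
  refine ⟨(Real.log M / Real.log 2 + d) / Real.log 2 + 1 / Real.log 2, by positivity, fun X hX => ?_⟩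
  have hXr : (2 : ℝ) ≤ X := by exact_mod_cast hX
  have hX0 : (0 : ℝ) < X := by linarith
  have hlX : Real.log 2 ≤ Real.log X := Real.log_le_log (by norm_num) hXr
  have h1 : ((Nat.log 2 (c₀ * (κ * X) ^ d) : ℕ) : ℝ) ≤ Real.log (M * (X : ℝ) ^ d) / Real.log 2 := by
    refine (Real.natLog_le_logb _ _).trans ?_
    rw [Real.logb, Nat.cast_ofNat]
    refine div_le_div_of_nonneg_right ?_ hl2.le
    rcases Nat.eq_zero_or_pos (c₀ * (κ * X) ^ d) with h0 | h0
    · rw [h0, Nat.cast_zero, Real.log_zero]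
      apply Real.log_nonneg
      have g1 : (1 : ℝ) ≤ (X : ℝ) ^ d := one_le_pow₀ (by linarith)
      nlinarith
    · refine Real.log_le_log (by exact_mod_cast h0) ?_
      push_cast
      rw [hM, mul_pow, mul_assoc]
      gcongr
      · linarith
      · linarith
  have h2 : Real.log (M * (X : ℝ) ^ d) = Real.log M + d * Real.log X := by
    rw [Real.log_mul (by linarith) (by positivity), Real.log_pow]
  have h3 : Real.log M ≤ Real.log M / Real.log 2 * Real.log X := by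
    rw [div_mul_eq_mul_div, le_div_iff₀ hl2]
    exact mul_le_mul_of_nonneg_left hlX hlM
  have h4 : (1 : ℝ) ≤ 1 / Real.log 2 * Real.log X := by
    rw [div_mul_eq_mul_div, one_mul, le_div_iff₀ hl2, one_mul]
    exact hlX
  push_cast
  calc ((Nat.log 2 (c₀ * (κ * X) ^ d) : ℕ) : ℝ) + 1
      ≤ Real.log (M * (X : ℝ) ^ d) / Real.log 2 + 1 := by linarith
    _ ≤ (Real.log M / Real.log 2 * Real.log X + d * Real.log X) / Real.log 2 +
        1 / Real.log 2 * Real.log X := by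
        refine add_le_add (div_le_div_of_nonneg_right ?_ hl2.le) h4
        rw [h2]
        linarith
    _ = _ := by ring

/-- the rational numbers of bounded height -/
theorem finite_height (X : ℕ) : {t : ℚ | t.den ≤ X ∧ |t.num| ≤ (X : ℤ)}.Finite := by
  refine Set.Finite.of_injOn (f := fun x : ℚ => (x.num, x.den))
    (t := Set.Icc (-(X : ℤ)) X ×ˢ Set.Iic X) ?_ ?_ ((Set.finite_Icc _ _).prod (Set.finite_Iic _))
  · rintro x ⟨h1, h2⟩
    exact ⟨abs_le.1 h2, h1⟩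
  · intro x _ y _ hxy
    simp only [Prod.mk.injEq] at hxy
    exact Rat.ext hxy.1 hxy.2

/-- A polynomial with two different roots: few bad rational numbers of bounded height. -/
theorem quant_two (D : ℕ) (P : ℤ[X]) (hP : 0 < P.natDegree) (h2 : 2 ≤ (rts P).ncard) :
    ∃ C : ℝ, 0 ≤ C ∧ ∃ a : ℕ, ∀ X : ℕ, 2 ≤ X →
      ({t : ℚ | (t.den ≤ X ∧ |t.num| ≤ (X : ℤ)) ∧ Bad D P t}.ncard : ℝ) ≤ C * Real.log X ^ a := by
  classical
  obtain ⟨h, a, D', hmon, hdeg, hsq, ha, hval, hbad⟩ := exists_monic D P hP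
  obtain ⟨A, B, R, hR0, hR⟩ := bezout h hsq
  have haq : (a : ℚ) ≠ 0 := by exact_mod_cast ha
  obtain ⟨K, hK⟩ := all_count hmon (h2.trans hdeg) hsq hR hR0 D'
  obtain ⟨C₁, hC₁, hl₁⟩ := log_lin (∑ i ∈ range (h.natDegree + 1), (h.coeff i).natAbs)
    h.natDegree a.natAbs
  obtain ⟨C₂, hC₂, hl₂⟩ := log_lin 1 1 a.natAbs
  refine ⟨K * (C₁ ^ (D' + 1) * C₂), by positivity, D' + 2, fun X hX => ?_⟩
  have hXr : (2 : ℝ) ≤ X := by exact_mod_cast hX
  have hlX : 0 ≤ Real.log X := Real.log_nonneg (by linarith)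
  have hfin : {t : ℚ | (t.den ≤ X ∧ |t.num| ≤ (X : ℤ)) ∧ Bad D P t}.Finite :=
    (finite_height X).subset fun t ht => ht.1
  have ha1 : 1 ≤ a.natAbs := Nat.one_le_iff_ne_zero.2 (Int.natAbs_ne_zero.2 ha)
  have h1 := hK (a.natAbs * X) (hfin.toFinset.image fun x => (a : ℚ) * x) (fun y hy => by
    obtain ⟨x, hx, rfl⟩ := Finset.mem_image.1 hy
    rw [Set.Finite.mem_toFinset] at hx
    obtain ⟨⟨g1, g2⟩, g3⟩ := hx
    obtain ⟨g4, g5⟩ := hbad x g3
    have g6 : ((a : ℚ) * x).den ≤ x.den := by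
      have h8 := Rat.mul_den_dvd (a : ℚ) x
      rw [Rat.den_intCast, one_mul] at h8
      exact Nat.le_of_dvd x.pos h8
    refine ⟨g4, g5, (g6.trans g1).trans (Nat.le_mul_of_pos_left _ ha1), ?_⟩
    have g7 : ((a : ℚ) * x).num * (x.den : ℤ) = a * x.num * (((a : ℚ) * x).den : ℤ) := by
      have h8 : (((a : ℚ) * x).num : ℚ) = (a : ℚ) * x * ((a : ℚ) * x).den :=
        (Rat.mul_den_eq_num _).symm
      have h9 : (x.num : ℚ) = x * x.den := (Rat.mul_den_eq_num _).symm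
      have h10 : ((((a : ℚ) * x).num * (x.den : ℤ) : ℤ) : ℚ) =
          ((a * x.num * (((a : ℚ) * x).den : ℤ) : ℤ) : ℚ) := by
        rw [Int.cast_mul, Int.cast_mul, Int.cast_mul, h8, h9, Int.cast_natCast, Int.cast_natCast]
        ring
      exact_mod_cast h10
    have g8 := congrArg Int.natAbs g7
    rw [Int.natAbs_mul, Int.natAbs_mul, Int.natAbs_mul, Int.natAbs_natCast, Int.natAbs_natCast] at g8
    have g9 : x.num.natAbs ≤ X := by
      rw [Int.abs_eq_natAbs] at g2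
      exact_mod_cast g2
    refine le_of_mul_le_mul_right (a := x.den) ?_ x.pos
    rw [g8]
    exact Nat.mul_le_mul (Nat.mul_le_mul_left _ g9) g6)
  rw [Finset.card_image_of_injective _ (fun x y hxy => mul_left_cancel₀ haq hxy)] at h1
  rw [Set.ncard_eq_toFinset_card _ hfin]
  have h3 := hl₁ X hX
  have h4 := hl₂ X hX
  rw [one_mul, pow_one] at h4
  calc (hfin.toFinset.card : ℝ) ≤ K * (((Nat.log 2 ((∑ i ∈ range (h.natDegree + 1),
        (h.coeff i).natAbs) * (a.natAbs * X) ^ h.natDegree) + 1 : ℕ) : ℝ) ^ (D' + 1) *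
          ((Nat.log 2 (a.natAbs * X) + 1 : ℕ) : ℝ)) := by exact_mod_cast h1
    _ ≤ K * ((C₁ * Real.log X) ^ (D' + 1) * (C₂ * Real.log X)) := by gcongr
    _ = K * (C₁ ^ (D' + 1) * C₂) * Real.log X ^ (D' + 2) := by ring

end Pool.Agent.D0H3.ZPM
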