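import Pool.Agent.D0H3.ZPM.Crit
import Pool.Agent.D0H3.ZPM.Quant
import Pool.Agent.D0H3.ZPM.Alg
import Pool.Agent.Y83.ZPI.Pl

/-!
The exceptional rational parameters of one family (helper file).
-/

set_option autoImplicit false

namespace Pool.Agent.D0H3.ZPM

open H294ZP UpperHalfPlane MvPolynomial Pool.Agent.W282.ZP Pool.Agent.Y152.BD Pool.Agent.Y910.Z
  Pool.Agent.Y199.SG
open Pool.Agent.Y83.ZPI (Bad)

theorem num_mul_dvd {x y : ℚ} {p : ℕ} (hp : p.Prime) (h : (p : ℤ) ∣ (x * y).num) :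
    (p : ℤ) ∣ x.num ∨ (p : ℤ) ∣ y.num := by
  have hpZ : Prime (p : ℤ) := Nat.prime_iff_prime_int.1 hp
  have h1 := Rat.mul_num_den' x y
  have h2 : (p : ℤ) ∣ x.num * y.num * ((x * y).den : ℤ) := by
    rw [← h1, mul_assoc]
    exact Dvd.dvd.mul_right h _
  rcases hpZ.dvd_or_dvd h2 with h3 | h3
  · exact hpZ.dvd_or_dvd h3
  · exfalso
    have h4 : p ∣ (x * y).num.natAbs := Int.natCast_dvd.1 h
    have h5 := Nat.dvd_gcd h4 (Int.natCast_dvd_natCast.1 h3)
    rw [Nat.Coprime.gcd_eq_one (x * y).reduced] at h5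
    exact hp.one_lt.ne' (Nat.dvd_one.1 h5)

theorem bad_prod (D : ℕ) {M : ℕ} (P : Fin M → Polynomial ℤ) (t : ℚ) (I : Finset (Fin M))
    (h : ∀ l ∈ I, Bad D (P l) t) : Bad D (∏ l ∈ I, P l) t := by
  classical
  induction I using Finset.induction_on with
  | empty =>
    rintro ⟨p, hp, -, hdvd⟩
    rw [Finset.prod_empty, map_one, Rat.num_one] at hdvd
    exact hp.one_lt.ne' (Nat.dvd_one.1 (by exact_mod_cast hdvd))
  | insert i I hi ih =>
    rintro ⟨p, hp, hpD, hdvd⟩
    rw [Finset.prod_insert hi, map_mul] at hdvd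
    rcases num_mul_dvd hp hdvd with h1 | h1
    · exact h i (Finset.mem_insert_self _ _) ⟨p, hp, hpD, h1⟩
    · exact ih (fun l hl => h l (Finset.mem_insert_of_mem hl)) ⟨p, hp, hpD, h1⟩

theorem rts_prod {M : ℕ} (P : Fin M → Polynomial ℤ) (I : Finset (Fin M)) :
    rts (∏ l ∈ I, P l) = {α : ℂ | ∃ l ∈ I, Polynomial.aeval α (P l) = 0} := by
  ext α
  rw [rts, Set.mem_ofPred_eq, Set.mem_ofPred_eq, map_prod, Finset.prod_eq_zero_iff]

/-- For the exceptional rational parameters the values of many of the polynomials have no large prime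
factors. -/
theorem exists_bad (K : Subfield ℂ) [Countable K] (κ : Type) [Finite κ] (N n m M L T : ℕ)
    (G : κ → MvPolynomial (Fin (N + 1)) (Polynomial K)) (hG : ∀ k, ∃ e, (G k).IsHomogeneous e)
    (A B : Fin n → MvPolynomial (Fin (N + 1)) (Polynomial K)) (δ : Fin n → ℕ)
    (hA : ∀ i, (A i).IsHomogeneous (δ i)) (hB : ∀ i, (B i).IsHomogeneous (δ i))
    (R : Fin n → Polynomial (Polynomial K)) (hR : ∀ i, (R i).Monic)
    (hT : ∀ i u w, ((R i).coeff u).coeff w ≠ 0 → u ≤ T ∧ w ≤ T)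
    (c : Fin n → Polynomial K) (P : Fin M → Polynomial ℤ) (hP : ∀ l, 0 < (P l).natDegree)
    (hind : IndependentOrders L T c fun l => {α : ℂ | Polynomial.aeval α (P l) = 0})
    (hpos : ∀ l, ∀ α : ℂ, Polynomial.aeval α (P l) = 0 → InGeneralPosition α m G A B)
    (Γ : Finset ℂ) (hΓ : ∀ γ ∈ Γ, IsAlgebraic K γ) :
    ∃ D : ℕ, ∀ t : ℚ,
      ¬ (SmallExcess (algebraMap (Algebra.adjoin ℤ (Γ : Set ℂ)) ℂ) K L m
          (scaledImage (t : ℂ) G A B R c) ∧
        (m < L → NoAtypical (algebraMap (Algebra.adjoin ℤ (Γ : Set ℂ)) ℂ) K m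
          (scaledImage (t : ℂ) G A B R c))) →
      ∃ I : Finset (Fin M), M ≤ I.card + L ∧ Bad D (∏ l ∈ I, P l) t := by
  classical
  have hP0 : ∀ l, P l ≠ 0 := by
    intro l h
    have := hP l
    rw [h, Polynomial.natDegree_zero] at this
    exact lt_irrefl _ this
  rcases Nat.eq_zero_or_pos M with hM | hM
  · subst hM
    refine ⟨0, fun t _ => ⟨∅, Nat.zero_le _, bad_prod 0 P t ∅ (by simp)⟩⟩
  have hfin : ∀ l, (rts (P l)).Finite := fun l => rts_finite (hP0 l)
  have hmem : ∀ l (α : ℂ), α ∈ (hfin l).toFinset ↔ Polynomial.aeval α (P l) = 0 := by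
    intro l α
    rw [Set.Finite.mem_toFinset]
    rfl
  have hne : ∃ l, ((hfin l).toFinset).Nonempty := by
    refine ⟨⟨0, hM⟩, ?_⟩
    have h1 : 0 < ((P ⟨0, hM⟩).map (algebraMap ℤ ℂ)).degree := by
      rw [Polynomial.degree_map_eq_of_injective (RingHom.injective_int _)]
      exact Polynomial.natDegree_pos_iff_degree_pos.1 (hP _)
    obtain ⟨z, hz⟩ := IsAlgClosed.exists_root _ h1.ne'
    refine ⟨z, (hmem _ _).2 ?_⟩
    rw [Polynomial.aeval_def, ← Polynomial.eval_map]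
    exact hz
  obtain ⟨W₁, hW₁⟩ := criterion K κ N n m M L T G hG A B δ hA hB R hR hT c
    (fun l => (hfin l).toFinset)
    (fun l α hα => by
      have h1 : IsAlgebraic ℤ α := ⟨P l, hP0 l, (hmem l α).1 hα⟩
      exact h1.extendScalars (algebraMap ℤ K).injective_int)
    (by
      have h1 : (fun l => ((hfin l).toFinset : Set ℂ)) =
          fun l => {α : ℂ | Polynomial.aeval α (P l) = 0} := by
        funext l
        rw [Set.Finite.coe_toFinset]
        rfl
      rw [h1]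
      exact hind)
    (fun l α hα => hpos l α ((hmem l α).1 hα)) Γ hΓ hne
  obtain ⟨D, hD⟩ := Pool.Agent.Y83.ZPI.exists_places (k := ℂ) (W₁ : Set ℂ) W₁.finite_toSet P hP
  refine ⟨D, fun t ht => ?_⟩
  -- the indices with a large prime factor
  set J : Finset (Fin M) := Finset.univ.filter fun l => ¬ Bad D (P l) t with hJ
  have hJL : J.card ≤ L := by
    by_contra hcon
    push Not at hcon
    obtain ⟨J', hJ'1, hJ'2⟩ := Finset.exists_subset_card_eq (s := J) (n := L + 1) (by omega)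
    apply ht
    refine hW₁ (t : ℂ) ?_ ⟨J'.orderEmbOfFin hJ'2, (J'.orderEmbOfFin hJ'2).injective, fun l => ?_⟩
    · have h1 : (t : ℂ) = algebraMap K ℂ (t : K) := (map_ratCast _ t).symm
      rw [h1]
      exact isAlgebraic_algebraMap _
    · have h1 : J'.orderEmbOfFin hJ'2 l ∈ J := hJ'1 (Finset.orderEmbOfFin_mem J' hJ'2 l)
      rw [hJ, Finset.mem_filter] at h1
      have h2 : ¬ ¬ ∃ p : ℕ, p.Prime ∧ D < p ∧
          (p : ℤ) ∣ (Polynomial.aeval t (P (J'.orderEmbOfFin hJ'2 l)) : ℚ).num := h1.2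
      obtain ⟨p, hp, hpD, hdvd⟩ := not_not.1 h2
      obtain ⟨V, α, hα, hlt, hV, -⟩ := hD t _ p hp hpD hdvd Empty Empty.elim
        (algebraicIndependent_empty_type_iff.2 (algebraMap ℂ ℂ).injective)
      refine ⟨α, (hmem _ _).2 hα, V, fun z hz => ?_, ?_⟩
      · exact hV z (Finset.mem_coe.2 hz)
      · exact hlt
  refine ⟨Jᶜ, ?_, bad_prod D P t _ fun l hl => ?_⟩
  · have := Finset.card_compl_add_card J
    rw [Fintype.card_fin] at this
    omega
  · rw [Finset.mem_compl, hJ, Finset.mem_filter, not_and] at hl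
    have h1 := hl (Finset.mem_univ l)
    rwa [not_not] at h1

end Pool.Agent.D0H3.ZPM
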