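import Pool.Agent.Y83.ZPI.Count

/-!
Rational numbers at which a monic squarefree polynomial takes values with the same numerator without
large prime factors (helper file).
-/

set_option autoImplicit false

open Polynomial Finset

namespace Pool.Agent.D0H3.ZPM

open Pool.Agent.Y83.ZPI (SmoothZ smooth_count hom hom_eq hom_bound Bad bad_hom)

/-- Two zeros modulo a prime power which are congruent modulo a small power. -/
theorem pair_prime {f A B : ℤ[X]} {R : ℤ} (hR : A * f + B * derivative f = C R) {p : ℕ}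
    (hp : p.Prime) {e : ℕ} {x y c : ℤ} (hx : (p : ℤ) ^ e ∣ f.eval x) (hy : (p : ℤ) ^ e ∣ f.eval y)
    (hc : ¬ (p : ℤ) ∣ c) (hxy : (p : ℤ) * R ∣ c * (x - y)) : (p : ℤ) ^ e ∣ R * (x - y) := by
  obtain ⟨k, hk⟩ := f.binomExpansion y (x - y)
  obtain ⟨z, hz⟩ := hxy
  have h1 : A.eval y * f.eval y + B.eval y * (derivative f).eval y = R := by
    have := congrArg (eval y) hR
    simpa using this
  rw [add_sub_cancel] at hk
  have h2 : R * (x - y) * (c + p * (z * k * B.eval y)) =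
      c * B.eval y * (f.eval x - f.eval y) + (x - y) * c * A.eval y * f.eval y := by
    have h3 : c * (x - y) * k * B.eval y * (x - y) = p * R * z * k * B.eval y * (x - y) := by
      rw [hz]
    rw [hk, ← h1]
    rw [← h1] at h3
    linear_combination -h3
  have h4 : (p : ℤ) ^ e ∣ R * (x - y) * (c + p * (z * k * B.eval y)) := by
    rw [h2]
    exact dvd_add (Dvd.dvd.mul_left (dvd_sub hx hy) _) (Dvd.dvd.mul_left hy _)
  refine IsCoprime.dvd_of_dvd_mul_right ?_ h4
  refine IsCoprime.pow_left ?_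
  rw [Prime.coprime_iff_not_dvd (Nat.prime_iff_prime_int.1 hp)]
  intro h5
  exact hc ((dvd_add_left (Dvd.intro _ rfl)).1 h5)

theorem hom_cong (f : ℤ[X]) (n u u' v : ℤ) (h : n ∣ u - u') : n ∣ hom f u v - hom f u' v := by
  unfold hom
  rw [← Finset.sum_sub_distrib]
  refine Finset.dvd_sum fun i _ => ?_
  rw [← sub_mul, ← mul_sub]
  exact Dvd.dvd.mul_right (Dvd.dvd.mul_left (h.trans (sub_dvd_pow_sub_pow u u' i)) _) _

theorem hom_mul_left (f : ℤ[X]) (x v : ℤ) : hom f (x * v) v = v ^ f.natDegree * f.eval x := by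
  unfold hom
  rw [eval_eq_sum_range, Finset.mul_sum]
  refine Finset.sum_congr rfl fun i hi => ?_
  have hi' : i ≤ f.natDegree := by
    have := Finset.mem_range.1 hi
    omega
  have e2 : v ^ f.natDegree = v ^ i * v ^ (f.natDegree - i) := by
    rw [← pow_add]
    congr 1
    omega
  rw [e2, mul_pow]
  ring

/-- For a monic polynomial a common prime factor of the value of the form and of `v` divides `u`. -/
theorem hom_monic {f : ℤ[X]} (hf : f.Monic) {p : ℕ} (hp : p.Prime) {u v : ℤ}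
    (h1 : (p : ℤ) ∣ hom f u v) (h2 : (p : ℤ) ∣ v) : (p : ℤ) ∣ u := by
  have hpZ : Prime (p : ℤ) := Nat.prime_iff_prime_int.1 hp
  have h3 : hom f u v = ∑ i ∈ range f.natDegree, f.coeff i * u ^ i * v ^ (f.natDegree - i) +
      u ^ f.natDegree := by
    unfold hom
    rw [Finset.sum_range_succ, Nat.sub_self, pow_zero, mul_one]
    have : f.coeff f.natDegree = 1 := hf
    rw [this, one_mul]
  have h4 : (p : ℤ) ∣ ∑ i ∈ range f.natDegree, f.coeff i * u ^ i * v ^ (f.natDegree - i) := by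
    refine Finset.dvd_sum fun i hi => Dvd.dvd.mul_left ?_ _
    have := Finset.mem_range.1 hi
    exact dvd_pow h2 (by omega)
  rw [h3] at h1
  exact hpZ.dvd_of_dvd_pow ((dvd_add_right h4).1 h1)

theorem pair_pow {f A B : ℤ[X]} {R : ℤ} (hf : f.Monic) (hR : A * f + B * derivative f = C R)
    (hR0 : R ≠ 0) {p : ℕ} (hp : p.Prime) {e : ℕ} (he : e ≠ 0) {u v u' v' : ℤ}
    (huv : IsCoprime u v) (huv' : IsCoprime u' v')
    (h1 : (p : ℤ) ^ e ∣ hom f u v) (h2 : (p : ℤ) ^ e ∣ hom f u' v')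
    (hcu : (p : ℤ) * R ∣ u - u') (hcv : (p : ℤ) * R ∣ v - v') :
    (p : ℤ) ^ e ∣ R * (u * v' - u' * v) := by
  have hpZ : Prime (p : ℤ) := Nat.prime_iff_prime_int.1 hp
  have hv : ∀ a b : ℤ, IsCoprime a b → (p : ℤ) ^ e ∣ hom f a b → ¬ (p : ℤ) ∣ b := by
    intro a b hab h3 h4
    have h5 := hom_monic hf hp ((dvd_pow_self _ he).trans h3) h4
    exact hpZ.not_unit (hab.isUnit_of_dvd' h5 h4)
  have hv1 := hv u v huv h1
  have hv2 := hv u' v' huv' h2
  -- the power of `p` in `R`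
  obtain ⟨s, R', hR', hRs⟩ : ∃ (s : ℕ) (R' : ℤ), ¬ (p : ℤ) ∣ R' ∧ R = (p : ℤ) ^ s * R' := by
    have hfin : FiniteMultiplicity (p : ℤ) R := Int.finiteMultiplicity_iff.2
      ⟨by rw [Int.natAbs_natCast]; exact hp.one_lt.ne', hR0⟩
    obtain ⟨c, hc1, hc2⟩ := hfin.exists_eq_pow_mul_and_not_dvd
    exact ⟨_, c, hc2, hc1⟩
  obtain ⟨E, hE⟩ : ∃ E : ℕ, E = e + s + 1 := ⟨_, rfl⟩
  have hcop : ∀ b : ℤ, ¬ (p : ℤ) ∣ b → ∀ j : ℕ, IsCoprime b ((p : ℤ) ^ j) := by
    intro b hb j
    exact (((Prime.coprime_iff_not_dvd hpZ).2 hb).symm).pow_right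
  obtain ⟨a, b, hab⟩ := hcop v hv1 E
  obtain ⟨a', b', hab'⟩ := hcop v' hv2 E
  have hx : ∀ (u v a b : ℤ), a * v + b * (p : ℤ) ^ E = 1 → ¬ (p : ℤ) ∣ v → (p : ℤ) ^ e ∣ hom f u v →
      (p : ℤ) ^ e ∣ f.eval (a * u) := by
    intro u v a b h3 h4 h5
    have h6 : (p : ℤ) ^ e ∣ u - a * u * v := by
      have h7 : u - a * u * v = u * b * (p : ℤ) ^ E := by linear_combination -u * h3
      rw [h7]
      exact Dvd.dvd.mul_left (pow_dvd_pow _ (by omega)) _
    have h7 := hom_cong f _ u (a * u * v) v h6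
    rw [hom_mul_left] at h7
    have h8 : (p : ℤ) ^ e ∣ v ^ f.natDegree * f.eval (a * u) := (dvd_sub_right h5).1 h7
    exact ((hcop v h4 e).symm.pow_right).dvd_of_dvd_mul_left h8
  have hx1 := hx u v a b hab hv1 h1
  have hx2 := hx u' v' a' b' hab' hv2 h2
  have hΔ : (p : ℤ) * R ∣ u * v' - u' * v := by
    have h3 : u * v' - u' * v = (u - u') * v' - u' * (v - v') := by ring
    rw [h3]
    exact dvd_sub (Dvd.dvd.mul_right hcu _) (Dvd.dvd.mul_left hcv _)
  have hkey : (a * u - a' * u') * (v * v') = (u * v' - u' * v) +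
      (p : ℤ) ^ E * (b' * u' * v - b * u * v') := by
    linear_combination (u * v') * hab - (u' * v) * hab'
  have h3 : (p : ℤ) ^ e ∣ R * (a * u - a' * u') := by
    refine pair_prime hR hp (c := v * v' * R') hx1 hx2 ?_ ?_
    · intro h4
      rcases hpZ.dvd_or_dvd h4 with h5 | h5
      · rcases hpZ.dvd_or_dvd h5 with h6 | h6
        · exact hv1 h6
        · exact hv2 h6
      · exact hR' h5
    · have h4 : v * v' * R' * (a * u - a' * u') = R' * (u * v' - u' * v) +
          (p : ℤ) ^ E * R' * (b' * u' * v - b * u * v') := by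
        linear_combination R' * hkey
      rw [h4]
      refine dvd_add (Dvd.dvd.mul_left hΔ _) (Dvd.dvd.mul_right ?_ _)
      rw [hRs, ← mul_assoc, ← pow_succ']
      exact mul_dvd_mul_right (pow_dvd_pow _ (by omega)) _
  have h4 : R * (u * v' - u' * v) = R * (a * u - a' * u') * (v * v') -
      (p : ℤ) ^ E * (R * (b' * u' * v - b * u * v')) := by
    linear_combination -R * hkey
  rw [h4]
  exact dvd_sub (Dvd.dvd.mul_right h3 _) (Dvd.dvd.mul_right (pow_dvd_pow _ (by omega)) _)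

/-- Two coprime pairs in one class at which the form has the same value without large prime factors:
the value divides a multiple of the determinant. -/
theorem pair_all {f A B : ℤ[X]} {R : ℤ} (hf : f.Monic) (hR : A * f + B * derivative f = C R)
    (hR0 : R ≠ 0) {D : ℕ} {u v u' v' m : ℤ}
    (huv : IsCoprime u v) (huv' : IsCoprime u' v') (hm : SmoothZ D m)
    (h1 : m ∣ hom f u v) (h2 : m ∣ hom f u' v')
    (hcu : (D.factorial : ℤ) * R ∣ u - u') (hcv : (D.factorial : ℤ) * R ∣ v - v') :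
    m ∣ R * (u * v' - u' * v) := by
  rw [← Int.natAbs_dvd_natAbs, Nat.dvd_iff_prime_pow_dvd_dvd]
  intro p k hp hk
  rcases eq_or_ne k 0 with rfl | hk0
  · rw [pow_zero]
    exact one_dvd _
  have h3 : (p : ℤ) ^ k ∣ m := by
    have := Int.natCast_dvd.2 hk
    push_cast at this
    exact this
  have hpm : (p : ℤ) ∣ m := (dvd_pow_self _ hk0).trans h3
  have hpD : p ≤ D := by
    by_contra hcon
    exact hm p hp (not_le.1 hcon) hpm
  have hpf : (p : ℤ) * R ∣ (D.factorial : ℤ) * R :=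
    mul_dvd_mul_right (Int.natCast_dvd_natCast.2 (Nat.dvd_factorial hp.pos hpD)) _
  have h4 := pair_pow hf hR hR0 hp hk0 huv huv' (h3.trans h1) (h3.trans h2) (hpf.trans hcu)
    (hpf.trans hcv)
  have h5 : ((p ^ k : ℕ) : ℤ) ∣ R * (u * v' - u' * v) := by
    push_cast
    exact h4
  exact Int.natCast_dvd.1 h5

end Pool.Agent.D0H3.ZPM
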