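import Pool.Agent.D0H3.ZPM.Pair

/-!
The number of the rational numbers of height at most `X` at which a monic squarefree polynomial of
degree at least two has no large prime factors is at most a power of the logarithm (helper file).
-/

set_option autoImplicit false

open Polynomial Finset

namespace Pool.Agent.D0H3.ZPM

open Pool.Agent.Y83.ZPI (SmoothZ smooth_count hom hom_eq hom_bound Bad bad_hom)

/-- a lower bound for the distances in a finite set -/
theorem exists_sep (S : Finset ℂ) : ∃ σ : ℝ, 0 < σ ∧ ∀ a ∈ S, ∀ b ∈ S, a ≠ b → σ ≤ ‖a - b‖ := by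
  classical
  rcases S.offDiag.eq_empty_or_nonempty with h | h
  · refine ⟨1, one_pos, fun a ha b hb hab => ?_⟩
    have h1 : (a, b) ∈ S.offDiag := Finset.mem_offDiag.2 ⟨ha, hb, hab⟩
    rw [h] at h1
    exact absurd h1 (Finset.notMem_empty _)
  · obtain ⟨p, hp, hmin⟩ := Finset.exists_min_image S.offDiag (fun p => ‖p.1 - p.2‖) h
    refine ⟨‖p.1 - p.2‖, ?_, fun a ha b hb hab => hmin (a, b) (Finset.mem_offDiag.2 ⟨ha, hb, hab⟩)⟩
    exact norm_pos_iff.2 (sub_ne_zero.2 (Finset.mem_offDiag.1 hp).2.2)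

/-- A number at which a monic squarefree polynomial has a small value is near to a root. -/
theorem near_root {f : ℤ[X]} (hf : f.Monic) (hd : 1 ≤ f.natDegree)
    (hsq : Squarefree (f.map (Int.castRingHom ℚ))) : ∃ (S : Finset ℂ) (c : ℝ), 0 < c ∧
      ∀ t : ℝ, ∃ α ∈ S, |t - α.re| ≤ c * |aeval t f| := by
  classical
  obtain ⟨F, hF⟩ : ∃ F : ℂ[X], F = f.map (Int.castRingHom ℂ) := ⟨_, rfl⟩
  have hFm : F.Monic := by rw [hF]; exact hf.map _
  have hsep : F.Separable := by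
    have h1 := (PerfectField.separable_iff_squarefree.2 hsq).map (f := algebraMap ℚ ℂ)
    rw [Polynomial.map_map] at h1
    have h2 : (algebraMap ℚ ℂ).comp (Int.castRingHom ℚ) = Int.castRingHom ℂ :=
      RingHom.ext_int _ _
    rw [h2, ← hF] at h1
    exact h1
  have hnd : F.roots.Nodup := nodup_roots hsep
  have hdeg : F.natDegree = f.natDegree := by
    rw [hF]
    exact natDegree_map_eq_of_injective (RingHom.injective_int _) f
  have hsp : F.Splits := IsAlgClosed.splits F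
  set S := F.roots.toFinset with hS
  have hev : ∀ z : ℂ, F.eval z = ∏ α ∈ S, (z - α) := by
    intro z
    rw [hsp.eval_eq_prod_roots z, hFm.leadingCoeff, one_mul, Finset.prod, hS, Multiset.toFinset_val,
      Multiset.dedup_eq_self.2 hnd]
  have hne : S.Nonempty := by
    have h1 : 0 < F.degree := by
      rw [← natDegree_pos_iff_degree_pos]
      omega
    obtain ⟨z, hz⟩ := IsAlgClosed.exists_root F h1.ne'
    exact ⟨z, Multiset.mem_toFinset.2 ((mem_roots hFm.ne_zero).2 hz)⟩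
  obtain ⟨σ, hσ, hsep'⟩ := exists_sep S
  refine ⟨S, ((σ / 2) ^ (S.card - 1))⁻¹, by positivity, fun t => ?_⟩
  obtain ⟨α, hα, hmin⟩ := Finset.exists_min_image S (fun α => ‖(t : ℂ) - α‖) hne
  refine ⟨α, hα, ?_⟩
  have h1 : |t - α.re| ≤ ‖(t : ℂ) - α‖ := by
    have := Complex.abs_re_le_norm ((t : ℂ) - α)
    simpa using this
  have h2 : |aeval t f| = ∏ β ∈ S, ‖(t : ℂ) - β‖ := by
    have h3 : ((aeval t f : ℝ) : ℂ) = F.eval (t : ℂ) := by
      rw [hF, eval_map]
      have h4 := aeval_algebraMap_apply ℂ t f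
      rw [aeval_def] at h4
      exact h4.symm
    rw [← norm_prod, ← hev, ← h3, Complex.norm_real, Real.norm_eq_abs]
  have h3 : (σ / 2) ^ (S.card - 1) ≤ ∏ β ∈ S.erase α, ‖(t : ℂ) - β‖ := by
    rw [← Finset.card_erase_of_mem hα, ← Finset.prod_const]
    refine Finset.prod_le_prod (fun _ _ => by positivity) fun β hβ => ?_
    obtain ⟨h4, h5⟩ := Finset.mem_erase.1 hβ
    have h6 := hsep' α hα β h5 h4.symm
    have h7 : ‖α - β‖ ≤ ‖(t : ℂ) - α‖ + ‖(t : ℂ) - β‖ := by
      have h8 : α - β = ((t : ℂ) - β) - ((t : ℂ) - α) := by ring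
      rw [h8, add_comm]
      exact norm_sub_le _ _
    have h8 := hmin β h5
    linarith
  rw [h2, ← Finset.mul_prod_erase S _ hα, ← div_eq_inv_mul, le_div_iff₀ (by positivity)]
  exact mul_le_mul h1 h3 (by positivity) (norm_nonneg _)

/-- The count. -/
theorem all_count {f A B : ℤ[X]} {R : ℤ} (hf : f.Monic) (hd : 2 ≤ f.natDegree)
    (hsq : Squarefree (f.map (Int.castRingHom ℚ))) (hR : A * f + B * derivative f = C R)
    (hR0 : R ≠ 0) (D : ℕ) : ∃ K : ℕ, ∀ Y : ℕ, ∀ S : Finset ℚ,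
      (∀ t ∈ S, hom f t.num t.den ≠ 0 ∧ SmoothZ D (hom f t.num t.den) ∧
        t.den ≤ Y ∧ t.num.natAbs ≤ Y) →
      S.card ≤ K * ((Nat.log 2 ((∑ i ∈ range (f.natDegree + 1), (f.coeff i).natAbs) *
        Y ^ f.natDegree) + 1) ^ (D + 1) * (Nat.log 2 Y + 1)) := by
  classical
  obtain ⟨q, hq⟩ : ∃ q : ℕ, q = ((D.factorial : ℤ) * R).natAbs := ⟨_, rfl⟩
  have hq0 : q ≠ 0 := by
    rw [hq]
    exact Int.natAbs_ne_zero.2 (mul_ne_zero (by exact_mod_cast D.factorial_ne_zero) hR0)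
  have : NeZero q := ⟨hq0⟩
  have hRr : 0 < |(R : ℝ)| := abs_pos.2 (by exact_mod_cast hR0)
  obtain ⟨Z, c, hc, hZ⟩ := near_root hf (by omega) hsq
  choose α hα hαn using hZ
  obtain ⟨Q, hQ⟩ : ∃ Q : ℝ, Q = 4 * |(R : ℝ)| * c := ⟨_, rfl⟩
  refine ⟨2 * (q * (q * (Z.card * (Finset.Icc ⌊-Q⌋ ⌊Q⌋).card))), fun Y S hS => ?_⟩
  -- the scaled position
  let V : ℚ → ℝ := fun t => (2 : ℝ) ^ Nat.log 2 t.den
  let m : ℚ → ℝ := fun t => |(hom f t.num t.den : ℝ)|
  let pos : ℚ → ℝ := fun t => ((t : ℝ) - (α t).re) * (4 * |(R : ℝ)| * V t ^ 2 / m t)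
  have hV : ∀ t : ℚ, V t ≤ t.den ∧ (t.den : ℝ) < 2 * V t ∧ 1 ≤ V t := by
    intro t
    refine ⟨?_, ?_, one_le_pow₀ (by norm_num)⟩
    · have h1 := Nat.pow_log_le_self 2 t.den_ne_zero
      have h2 : ((2 ^ Nat.log 2 t.den : ℕ) : ℝ) ≤ t.den := by exact_mod_cast h1
      simpa [V] using h2
    · have h1 := Nat.lt_pow_succ_log_self (b := 2) (by norm_num) t.den
      have h2 : ((t.den : ℕ) : ℝ) < ((2 ^ (Nat.log 2 t.den).succ : ℕ) : ℝ) := by exact_mod_cast h1
      rw [Nat.succ_eq_add_one, pow_succ] at h2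
      push_cast at h2
      simp only [V]
      linarith
  have hval : ∀ t : ℚ, m t = |aeval (t : ℝ) f| * (t.den : ℝ) ^ f.natDegree := by
    intro t
    have hd0 : (0 : ℝ) < t.den := by exact_mod_cast t.pos
    have e2 := hom_eq f t
    have e3 : ((aeval t f : ℚ) : ℝ) = aeval (t : ℝ) f := by
      have := aeval_algebraMap_apply ℝ t f
      simpa using this.symm
    have e4 := congrArg (fun z : ℚ => (z : ℝ)) e2
    push_cast at e4
    simp only [m]
    rw [e4, e3, abs_mul, abs_of_pos (pow_pos hd0 _)]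
  let g : ℚ → ℤ × ZMod q × ZMod q × ℕ × ℂ × ℤ := fun t =>
    (hom f t.num t.den, (t.num : ZMod q), ((t.den : ℤ) : ZMod q), Nat.log 2 t.den, α t, ⌊pos t⌋)
  have hdvd : ∀ a b : ℤ, (a : ZMod q) = b → (D.factorial : ℤ) * R ∣ a - b := by
    intro a b h
    rw [← Int.natAbs_dvd, ← hq]
    exact (ZMod.intCast_eq_intCast_iff_dvd_sub b a q).1 h.symm
  have hinj : Set.InjOn g S := by
    intro t ht t' ht' hg
    rw [Finset.mem_coe] at ht ht'
    obtain ⟨h1, h2, h5, h6⟩ := hS t ht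
    obtain ⟨h1', h2', h5', h6'⟩ := hS t' ht'
    simp only [g, Prod.mk.injEq] at hg
    obtain ⟨e1, e2, e3, e4, e5, e6⟩ := hg
    by_contra hne
    have hcop : ∀ x : ℚ, IsCoprime x.num (x.den : ℤ) := fun x => by
      have h8 : Nat.Coprime x.num.natAbs (x.den : ℤ).natAbs := by simpa using x.reduced
      exact Int.isCoprime_iff_gcd_eq_one.2 h8
    have hp := pair_all hf hR hR0 (hcop t) (hcop t') h2 dvd_rfl (dvd_of_eq e1)
      (hdvd _ _ e2) (hdvd _ _ e3)
    have hd1 : (0 : ℝ) < t.den := by exact_mod_cast t.pos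
    have hd2 : (0 : ℝ) < t'.den := by exact_mod_cast t'.pos
    have ht1 : (t : ℝ) = t.num / t.den := by exact_mod_cast (Rat.num_div_den t).symm
    have ht2 : (t' : ℝ) = t'.num / t'.den := by exact_mod_cast (Rat.num_div_den t').symm
    have hdiff : (t : ℝ) - t' = ((t.num * t'.den - t'.num * t.den : ℤ) : ℝ) / (t.den * t'.den) := by
      rw [ht1, ht2]
      push_cast
      field_simp
    have hΔ0 : t.num * (t'.den : ℤ) - t'.num * (t.den : ℤ) ≠ 0 := by
      intro h0
      rw [h0, Int.cast_zero, zero_div, sub_eq_zero] at hdiff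
      exact hne (by exact_mod_cast hdiff)
    have h8 : |(hom f t.num t.den : ℝ)| ≤
        |(R : ℝ)| * |((t.num * t'.den - t'.num * t.den : ℤ) : ℝ)| := by
      have h9 : |hom f t.num t.den| ≤ |R * (t.num * t'.den - t'.num * t.den)| := by
        refine Int.le_of_dvd (abs_pos.2 (mul_ne_zero hR0 hΔ0)) ?_
        rw [abs_dvd_abs]
        exact hp
      have h10 : ((|hom f t.num t.den| : ℤ) : ℝ) ≤
          ((|R * (t.num * t'.den - t'.num * t.den)| : ℤ) : ℝ) := by exact_mod_cast h9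
      rw [Int.cast_abs, Int.cast_abs, Int.cast_mul, abs_mul] at h10
      exact h10
    have hm0 : 0 < m t := abs_pos.2 (by exact_mod_cast h1)
    have hVV : V t' = V t := by simp only [V, e4]
    have hmm : m t' = m t := by simp only [m, e1]
    obtain ⟨v1, v2, v3⟩ := hV t
    obtain ⟨v1', v2', v3'⟩ := hV t'
    rw [hVV] at v2'
    have h9 : m t ≤ |(R : ℝ)| * (|(t : ℝ) - t'| * (4 * V t ^ 2)) := by
      have h10 : |((t.num * t'.den - t'.num * t.den : ℤ) : ℝ)| =
          |(t : ℝ) - t'| * (t.den * t'.den) := by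
        rw [hdiff, abs_div, abs_of_pos (mul_pos hd1 hd2), div_mul_cancel₀ _ (mul_pos hd1 hd2).ne']
      have h11 : (t.den : ℝ) * t'.den ≤ 4 * V t ^ 2 := by
        calc (t.den : ℝ) * t'.den ≤ (2 * V t) * (2 * V t) :=
              mul_le_mul v2.le v2'.le hd2.le (by linarith)
          _ = 4 * V t ^ 2 := by ring
      calc m t ≤ |(R : ℝ)| * (|(t : ℝ) - t'| * (t.den * t'.den)) := by
            rw [← h10]
            exact h8
        _ ≤ _ := by gcongr
    have h12 := Int.abs_sub_lt_one_of_floor_eq_floor e6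
    have h13 : pos t - pos t' = ((t : ℝ) - t') * (4 * |(R : ℝ)| * V t ^ 2 / m t) := by
      simp only [pos]
      rw [hVV, hmm, e5]
      ring
    have h14 : 0 < 4 * |(R : ℝ)| * V t ^ 2 / m t := by positivity
    rw [h13, abs_mul, abs_of_pos h14, ← mul_div_assoc, div_lt_one hm0] at h12
    nlinarith
  have hmaps : Set.MapsTo g S
      (((S.image fun t => hom f t.num t.den) ×ˢ (Finset.univ : Finset (ZMod q)) ×ˢ
        (Finset.univ : Finset (ZMod q)) ×ˢ Finset.range (Nat.log 2 Y + 1) ×ˢ Z ×ˢ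
          Finset.Icc ⌊-Q⌋ ⌊Q⌋ :
          Finset (ℤ × ZMod q × ZMod q × ℕ × ℂ × ℤ)) : Set (ℤ × ZMod q × ZMod q × ℕ × ℂ × ℤ)) := by
    intro t ht
    rw [Finset.mem_coe] at ht ⊢
    obtain ⟨h1, h2, h5, h6⟩ := hS t ht
    simp only [g, Finset.mem_product, Finset.mem_univ, true_and, Finset.mem_Icc, Finset.mem_image,
      Finset.mem_range]
    have hm0 : 0 < m t := abs_pos.2 (by exact_mod_cast h1)
    obtain ⟨v1, v2, v3⟩ := hV t
    have hpos : |pos t| ≤ Q := by
      have h7 : 0 ≤ 4 * |(R : ℝ)| * V t ^ 2 / m t := by positivity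
      simp only [pos]
      rw [abs_mul, abs_of_nonneg h7, ← mul_div_assoc, div_le_iff₀ hm0, hQ]
      have h8 : V t ^ 2 ≤ (t.den : ℝ) ^ f.natDegree :=
        calc V t ^ 2 ≤ V t ^ f.natDegree := pow_le_pow_right₀ v3 hd
          _ ≤ (t.den : ℝ) ^ f.natDegree := pow_le_pow_left₀ (by linarith) v1 _
      have h9 := hαn t
      calc |(t : ℝ) - (α t).re| * (4 * |(R : ℝ)| * V t ^ 2) ≤
          (c * |aeval (t : ℝ) f|) * (4 * |(R : ℝ)| * (t.den : ℝ) ^ f.natDegree) := by gcongr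
        _ = 4 * |(R : ℝ)| * c * m t := by
            rw [hval]
            ring
    refine ⟨⟨t, ht, rfl⟩, Nat.lt_succ_of_le (Nat.log_mono_right h5), hα _, Int.floor_le_floor ?_,
      Int.floor_le_floor ?_⟩
    · exact (abs_le.1 hpos).1
    · exact (abs_le.1 hpos).2
  have h1 := Finset.card_le_card_of_injOn g hmaps hinj
  have h2 : (S.image fun t => hom f t.num t.den).card ≤
      2 * (Nat.log 2 ((∑ i ∈ range (f.natDegree + 1), (f.coeff i).natAbs) *
        Y ^ f.natDegree) + 1) ^ (D + 1) := by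
    refine smooth_count _ _ _ fun z hz => ?_
    obtain ⟨t, ht, rfl⟩ := Finset.mem_image.1 hz
    obtain ⟨h1, h2, h5, h6⟩ := hS t ht
    refine ⟨h1, hom_bound f h6 ?_, h2⟩
    simpa using h5
  rw [Finset.card_product, Finset.card_product, Finset.card_product, Finset.card_product,
    Finset.card_product, Finset.card_univ, ZMod.card, Finset.card_range] at h1
  refine h1.trans ?_
  calc _ ≤ (2 * (Nat.log 2 ((∑ i ∈ range (f.natDegree + 1), (f.coeff i).natAbs) *
        Y ^ f.natDegree) + 1) ^ (D + 1)) * (q * (q * ((Nat.log 2 Y + 1) *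
          (Z.card * (Finset.Icc ⌊-Q⌋ ⌊Q⌋).card)))) := by gcongr
    _ = _ := by ring

end Pool.Agent.D0H3.ZPM
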